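import Pool.Agent.TFA.Prod

set_option autoImplicit false
set_option linter.unusedSectionVars false

/-! Transport along isomorphisms, and the decomposition of a finite abelian group. -/

noncomputable section

namespace Pool.Agent.TFA

open Finset

theorem conv_equiv {A B : Type*} [AddCommGroup A] [Fintype A] [AddCommGroup B] [Fintype B]
    (e : A ≃+ B) (D : A → ℤ) (x : B) :
    conv (fun b => D (e.symm b)) (fun b => D (e.symm b)) x = conv D D (e.symm x) := by
  unfold conv
  rw [← Equiv.sum_comp e.toEquiv]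
  refine Finset.sum_congr rfl fun y _ => ?_
  simp

theorem TF.equiv {A B : Type*} [AddCommGroup A] [Fintype A] [DecidableEq A] [AddCommGroup B]
    [Fintype B] [DecidableEq B] (e : A ≃+ B) {D : A → ℤ} {k μ : ℤ} (h : TF D k μ) :
    TF (fun b => D (e.symm b)) k μ where
  val x := h.val _
  zero := by rw [map_zero]; exact h.zero
  neg x := by rw [map_neg]; exact h.neg _
  conv x := by
    rw [conv_equiv, h.conv]
    by_cases hx : x = 0
    · rw [if_pos hx, if_pos (by rw [hx, map_zero])]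
    · rw [if_neg hx, if_neg (by rw [EmbeddingLike.map_eq_zero_iff]; exact hx)]
  mu1 := h.mu1
  muk := h.muk

/-- a finite abelian group is the product of a 2-group and a group of odd order -/
theorem exists_decomp (A : Type*) [AddCommGroup A] [Finite A] :
    ∃ (T H : Type) (_ : AddCommGroup T) (_ : AddCommGroup H) (_ : Fintype T) (_ : Fintype H)
      (n : ℕ), Nonempty (A ≃+ T × H) ∧ Fintype.card T = 2 ^ n ∧ Odd (Fintype.card H) := by
  classical
  obtain ⟨ι, _, p, hp, e, ⟨f⟩⟩ := AddCommGroup.equiv_directSum_zmod_of_finite A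
  have hne : ∀ i, NeZero (p i ^ e i) := fun i => ⟨pow_ne_zero _ (hp i).ne_zero⟩
  let g1 : (DirectSum ι fun i => ZMod (p i ^ e i)) ≃+ (∀ i, ZMod (p i ^ e i)) :=
    DirectSum.addEquivProd _
  let g2 : (∀ i, ZMod (p i ^ e i)) ≃+
      (∀ i : {i // p i = 2}, ZMod (p i ^ e i)) × (∀ i : {i // ¬ p i = 2}, ZMod (p i ^ e i)) :=
    { Equiv.piEquivPiSubtypeProd (fun i => p i = 2) (fun i => ZMod (p i ^ e i)) with
      map_add' := fun _ _ => rfl }
  refine ⟨(∀ i : {i // p i = 2}, ZMod (p i ^ e i)), (∀ i : {i // ¬ p i = 2}, ZMod (p i ^ e i)),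
    inferInstance, inferInstance, inferInstance, inferInstance,
    ∑ i : {i // p i = 2}, e i, ⟨(f.trans g1).trans g2⟩, ?_, ?_⟩
  · rw [Fintype.card_pi, ← Finset.prod_pow_eq_pow_sum]
    refine Finset.prod_congr rfl fun i _ => ?_
    rw [ZMod.card, i.2]
  · rw [Fintype.card_pi]
    apply Finset.prod_induction _ (fun n : ℕ => Odd n) (fun a b ha hb => ha.mul hb) odd_one
    intro i _
    rw [ZMod.card]
    exact ((hp i).odd_of_ne_two i.2).pow

/-- the parameters -/
theorem TF.params {A : Type*} [AddCommGroup A] [Fintype A] [DecidableEq A] {D : A → ℤ} {k μ : ℤ}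
    (h : TF D k μ) :
    (Fintype.card A = 5 ∧ k = 2 ∧ μ = 1) ∨ (Fintype.card A = 16 ∧ k = 5 ∧ μ = 2) := by
  classical
  by_cases hs : IsSquare (μ * μ + 4 * (k - μ))
  · right
    obtain ⟨T, H, _, _, _, _, n, ⟨e⟩, hT, hH⟩ := exists_decomp A
    have h' := h.equiv e
    obtain ⟨r, m, hk, hμ, h2⟩ := h'.square hs
    obtain ⟨hr, hm⟩ := h2.main n hT hH
    have hk5 : k = 5 := by rw [hk, hr, hm]; norm_num
    have hμ2 : μ = 2 := by rw [hμ, hr, hm]; norm_num
    refine ⟨?_, hk5, hμ2⟩
    have hp := h.param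
    rw [hk5, hμ2] at hp
    omega
  · left
    obtain ⟨h1, h2, h3⟩ := h.nonsquare hs
    exact ⟨h3, h1, h2⟩

end Pool.Agent.TFA
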