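import Mathlib

set_option autoImplicit false

/-! Combinatorial and arithmetical lemmas for triangle-free strongly regular Cayley graphs of
abelian groups. -/

namespace Pool.Agent.TFA

/-- the covariance inequality between a 0/1-valued and an integer valued function -/
theorem slope_key {α : Type*} (Ω : Finset α) (i D : α → ℤ) (y E : ℤ)
    (hE : ∑ s ∈ Ω, i s = (Ω.card : ℤ) * y + E) :
    ((Ω.card : ℤ) * ∑ s ∈ Ω, i s * i s - (∑ s ∈ Ω, i s) * ∑ s ∈ Ω, i s)
      + ((Ω.card : ℤ) * ∑ s ∈ Ω, D s * i s - (∑ s ∈ Ω, D s) * ∑ s ∈ Ω, i s)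
      = ∑ s ∈ Ω, (i s - y + D s - 1) * ((Ω.card : ℤ) * (i s - y) - E) := by
  set n : ℤ := (Ω.card : ℤ) with hn
  set I : ℤ := ∑ s ∈ Ω, i s with hI
  have h1 : ∀ s ∈ Ω, (i s - y + D s - 1) * (n * (i s - y) - E)
      = n * (i s * i s) + n * (D s * i s) - (I + (y + 1) * n) * i s + (y + 1) * I - I * D s := by
    intro s _
    have : E = I - n * y := by linarith
    rw [this]; ring
  rw [Finset.sum_congr rfl h1, Finset.sum_sub_distrib, Finset.sum_add_distrib,
    Finset.sum_sub_distrib, Finset.sum_add_distrib, Finset.sum_const, nsmul_eq_mul, ← hn]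
  simp only [← Finset.mul_sum, ← hI]
  ring

theorem slope_term {n E e D : ℤ} (hE0 : 0 ≤ E) (hEn : E < n) (hD : D = 0 ∨ D = 1) :
    0 ≤ (e + D - 1) * (n * e - E) := by
  rcases le_or_gt 1 e with he | he
  · apply mul_nonneg
    · rcases hD with h | h <;> subst h <;> omega
    · nlinarith
  · apply mul_nonneg_of_nonpos_of_nonpos
    · rcases hD with h | h <;> subst h <;> omega
    · nlinarith

theorem slope_nonneg {α : Type*} (Ω : Finset α) (hΩ : Ω.Nonempty) (i D : α → ℤ)
    (hD : ∀ s ∈ Ω, D s = 0 ∨ D s = 1) :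
    0 ≤ ((Ω.card : ℤ) * ∑ s ∈ Ω, i s * i s - (∑ s ∈ Ω, i s) * ∑ s ∈ Ω, i s)
      + ((Ω.card : ℤ) * ∑ s ∈ Ω, D s * i s - (∑ s ∈ Ω, D s) * ∑ s ∈ Ω, i s) := by
  have hn : (0 : ℤ) < (Ω.card : ℤ) := by exact_mod_cast Finset.card_pos.2 hΩ
  have h1 : ∑ s ∈ Ω, i s = (Ω.card : ℤ) * ((∑ s ∈ Ω, i s) / (Ω.card : ℤ))
      + (∑ s ∈ Ω, i s) % (Ω.card : ℤ) := (Int.mul_ediv_add_emod _ _).symm
  rw [slope_key Ω i D _ _ h1]
  apply Finset.sum_nonneg
  intro s hs
  exact slope_term (Int.emod_nonneg _ hn.ne') (Int.emod_lt_of_pos _ hn) (hD s hs)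

theorem slope_eq {α : Type*} (Ω : Finset α) (hΩ : Ω.Nonempty) (i D : α → ℤ)
    (hD : ∀ s ∈ Ω, D s = 0 ∨ D s = 1)
    (h0 : ((Ω.card : ℤ) * ∑ s ∈ Ω, i s * i s - (∑ s ∈ Ω, i s) * ∑ s ∈ Ω, i s)
      + ((Ω.card : ℤ) * ∑ s ∈ Ω, D s * i s - (∑ s ∈ Ω, D s) * ∑ s ∈ Ω, i s) = 0) :
    (∃ y, ∀ s ∈ Ω, i s = y) ∨ (∃ y, ∀ s ∈ Ω, i s = y + 1 - D s) := by
  have hn : (0 : ℤ) < (Ω.card : ℤ) := by exact_mod_cast Finset.card_pos.2 hΩ
  set y := (∑ s ∈ Ω, i s) / (Ω.card : ℤ) with hy
  set E := (∑ s ∈ Ω, i s) % (Ω.card : ℤ) with hE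
  have h1 : ∑ s ∈ Ω, i s = (Ω.card : ℤ) * y + E := (Int.mul_ediv_add_emod _ _).symm
  have hE0 : 0 ≤ E := Int.emod_nonneg _ hn.ne'
  have hEn : E < (Ω.card : ℤ) := Int.emod_lt_of_pos _ hn
  rw [slope_key Ω i D _ _ h1] at h0
  have h2 := (Finset.sum_eq_zero_iff_of_nonneg (fun s hs =>
    slope_term (e := i s - y) hE0 hEn (hD s hs))).1 h0
  by_cases hE00 : E = 0
  · left
    refine ⟨y, ?_⟩
    have h3 : ∀ s ∈ Ω, 0 ≤ i s - y := by
      intro s hs
      rcases mul_eq_zero.1 (h2 s hs) with h | h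
      · rcases hD s hs with h' | h' <;> omega
      · rw [hE00, sub_zero] at h
        rcases mul_eq_zero.1 h with h | h
        · omega
        · omega
    have h4 : ∑ s ∈ Ω, (i s - y) = 0 := by
      rw [Finset.sum_sub_distrib, Finset.sum_const, nsmul_eq_mul, h1, hE00]; ring
    intro s hs
    have := (Finset.sum_eq_zero_iff_of_nonneg h3).1 h4 s hs
    omega
  · right
    refine ⟨y, ?_⟩
    intro s hs
    rcases mul_eq_zero.1 (h2 s hs) with h | h
    · omega
    · exfalso
      have h5 : (Ω.card : ℤ) * (i s - y) = E := by linarith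
      rcases lt_trichotomy (i s - y) 0 with h6 | h6 | h6
      · nlinarith
      · rw [h6, mul_zero] at h5; exact hE00 h5.symm
      · nlinarith

/-- the arithmetic of the parameters in a 2-group -/
theorem two_group_arith (r m f n : ℕ) (hr : 1 ≤ r) (hrm : r < m) (hf : r + m = 2 ^ f)
    (hN : r * m + m - r < 2 ^ n)
    (h : (r * m + 2 * m - r) * (r * m + m - 2 * r) = (m - r) * 2 ^ n) :
    r = 1 ∧ m = 3 ∧ f = 2 ∧ n = 4 := by
  -- work with X = r m + 2 m - r, Y = X - 2^f
  obtain ⟨X, hX⟩ : ∃ X, X = r * m + 2 * m - r := ⟨_, rfl⟩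
  obtain ⟨Y, hY⟩ : ∃ Y, Y = r * m + m - 2 * r := ⟨_, rfl⟩
  have hrm1 : m ≤ r * m := Nat.le_mul_of_pos_left m hr
  have hXY : X = Y + 2 ^ f := by omega
  have hX1 : X + r * (r + 3) = 2 ^ f * (r + 2) := by
    rw [← hf]
    have : X + r = r * m + 2 * m := by omega
    nlinarith
  rw [← hX, ← hY] at h
  have hf1 : 1 ≤ f := by
    rcases Nat.eq_zero_or_pos f with h0 | h0
    · subst h0; omega
    · exact h0
  obtain ⟨w, hw⟩ : ∃ w, m - r = 2 * w := by
    obtain ⟨f', rfl⟩ : ∃ f', f = f' + 1 := ⟨f - 1, by omega⟩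
    refine ⟨(m - r) / 2, ?_⟩
    rw [pow_succ] at hf
    omega
  have hm2 : r + 2 ≤ m := by omega
  have hXpos : X ≠ 0 := by omega
  have hk : r * (r + 2) + 2 < 2 ^ n := by
    have : r * (r + 2) ≤ r * m := Nat.mul_le_mul_left r hm2
    omega
  obtain ⟨h', o, ho, hXo⟩ := Nat.exists_eq_two_pow_mul_odd hXpos
  by_cases hlt : h' < f
  · exfalso
    -- Y = 2^h' * odd
    obtain ⟨o', ho', hYo⟩ : ∃ o', Odd o' ∧ Y = 2 ^ h' * o' := by
      have hYle : 2 ^ (f - h') ≤ o := by
        have h1 : 2 ^ h' * 2 ^ (f - h') ≤ 2 ^ h' * o := by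
          rw [← pow_add, Nat.add_sub_cancel' hlt.le, ← hXo]; omega
        exact Nat.le_of_mul_le_mul_left h1 (by positivity)
      refine ⟨o - 2 ^ (f - h'), ?_, ?_⟩
      · rw [Nat.odd_sub hYle]
        constructor
        · intro _
          exact (Nat.even_pow.2 ⟨even_two, by omega⟩)
        · intro _; exact ho
      · rw [Nat.mul_sub, ← pow_add, Nat.add_sub_cancel' hlt.le, ← hXo]; omega
    have h2 : 2 ^ (n + 1) ∣ 2 ^ (2 * h') := by
      have h3 : 2 ^ (n + 1) ∣ 2 ^ (2 * h') * (o * o') := by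
        refine ⟨w, ?_⟩
        have : X * Y = 2 ^ (2 * h') * (o * o') := by rw [hXo, hYo]; ring
        rw [← this, h, hw]; ring
      have h4 : Nat.Coprime (2 ^ (n + 1)) (o * o') := by
        apply Nat.Coprime.pow_left
        exact (Nat.coprime_two_left).2 (ho.mul ho')
      exact h4.dvd_of_dvd_mul_right h3
    have h3 : n + 1 ≤ 2 * h' := (Nat.pow_dvd_pow_iff_le_right (by norm_num)).1 h2
    have h4 : 2 ^ n * 2 ≤ 2 ^ h' * 2 ^ h' := by
      rw [← pow_succ, ← pow_add]
      exact Nat.pow_le_pow_right (by norm_num) (by omega)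
    have h5 : 2 ^ h' ∣ r * (r + 3) := by
      have h6 : 2 ^ h' ∣ X + r * (r + 3) := by
        rw [hX1]; exact Dvd.dvd.mul_right (pow_dvd_pow 2 hlt.le) _
      exact (Nat.dvd_add_right ⟨o, hXo⟩).1 h6
    have hh1 : 1 ≤ h' := by omega
    rcases Nat.even_or_odd r with he | he
    · have h7 : Nat.Coprime (2 ^ h') (r + 3) := by
        apply Nat.Coprime.pow_left
        apply (Nat.coprime_two_left).2
        exact he.add_odd (by decide)
      have h8 : 2 ^ h' ≤ r := Nat.le_of_dvd hr (h7.dvd_of_dvd_mul_right h5)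
      have h9 : 2 ^ h' * 2 ^ h' ≤ r * r := Nat.mul_le_mul h8 h8
      have h10 : r * (r + 2) = r * r + 2 * r := by ring
      omega
    · have h7 : Nat.Coprime (2 ^ h') r := by
        apply Nat.Coprime.pow_left
        exact (Nat.coprime_two_left).2 he
      have h8 : 2 ^ h' ∣ r + 3 := h7.dvd_of_dvd_mul_left h5
      have h9 : 2 ^ h' ≤ r + 3 := Nat.le_of_dvd (by omega) h8
      have h10 : r ≤ 3 := by
        by_contra hcon
        have h4r : 4 ≤ r := by omega
        have h11 : 2 ^ h' * 2 ^ h' ≤ (r + 3) * (r + 3) := Nat.mul_le_mul h9 h9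
        have h12 : (r + 3) * (r + 3) = r * r + 6 * r + 9 := by ring
        have h13 : r * (r + 2) = r * r + 2 * r := by ring
        have h14 : 4 * r ≤ r * r := Nat.mul_le_mul_right r h4r
        -- `2 (r^2+2r+3) ≤ 2^(n+1) ≤ (r+3)^2`, so `r^2 ≤ 2 r + 3`
        omega
      obtain ⟨z, hz⟩ := he
      have h11 : r = 1 ∨ r = 3 := by omega
      rcases h11 with h11 | h11
      · subst h11
        have h12 : h' ≤ 2 := by
          have : 2 ^ h' ≤ 2 ^ 2 := by omega
          exact (Nat.pow_le_pow_iff_right (by norm_num)).1 this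
        have h13 : n ≤ 3 := by omega
        have h14 : 2 ^ n ≤ 2 ^ 3 := Nat.pow_le_pow_right (by norm_num) h13
        have h15 : m ≤ 4 := by omega
        have h16 : f ≤ 2 := by
          by_contra hcon
          have : 2 ^ 3 ≤ 2 ^ f := Nat.pow_le_pow_right (by norm_num) (by omega)
          omega
        have h17 : h' ≤ 1 := by omega
        have h18 : n ≤ 1 := by omega
        have h19 : 2 ^ n ≤ 2 ^ 1 := Nat.pow_le_pow_right (by norm_num) h18
        omega
      · subst h11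
        have h12 : h' ≤ 1 := by
          have h20 : h' ≤ 2 := by
            have : 2 ^ h' ≤ 2 ^ 3 := by omega
            have := (Nat.pow_le_pow_iff_right (a := 2) (by norm_num)).1 this
            have h21 : h' ≠ 3 := by
              rintro rfl
              norm_num at h9
            omega
          have h21 : h' ≠ 2 := by
            rintro rfl
            norm_num at h8
          omega
        have h18 : n ≤ 1 := by omega
        have h19 : 2 ^ n ≤ 2 ^ 1 := Nat.pow_le_pow_right (by norm_num) h18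
        omega
  · -- 2^f divides r (r+3)
    have h5 : 2 ^ f ∣ r * (r + 3) := by
      have h6 : 2 ^ f ∣ X + r * (r + 3) := by
        rw [hX1]; exact Dvd.intro _ rfl
      have h7 : 2 ^ f ∣ X := by
        rw [hXo]; exact Dvd.dvd.mul_right (pow_dvd_pow 2 (by omega)) _
      exact (Nat.dvd_add_right h7).1 h6
    have hr3 : r = 1 ∧ f = 2 := by
      rcases Nat.even_or_odd r with he | he
      · have h7 : Nat.Coprime (2 ^ f) (r + 3) := by
          apply Nat.Coprime.pow_left
          apply (Nat.coprime_two_left).2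
          exact he.add_odd (by decide)
        have h8 : 2 ^ f ≤ r := Nat.le_of_dvd hr (h7.dvd_of_dvd_mul_right h5)
        omega
      · have h7 : Nat.Coprime (2 ^ f) r := by
          apply Nat.Coprime.pow_left
          exact (Nat.coprime_two_left).2 he
        have h9 : 2 ^ f ≤ r + 3 := Nat.le_of_dvd (by omega) (h7.dvd_of_dvd_mul_left h5)
        have h10 : r < 3 := by omega
        obtain ⟨z, hz⟩ := he
        have h11 : r = 1 := by omega
        subst h11
        have h12 : m = 3 := by omega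
        subst h12
        refine ⟨rfl, ?_⟩
        have : (2 : ℕ) ^ f = 2 ^ 2 := by omega
        exact Nat.pow_right_injective (le_refl 2) this
    obtain ⟨rfl, rfl⟩ := hr3
    have h12 : m = 3 := by omega
    subst h12
    refine ⟨rfl, rfl, rfl, ?_⟩
    have h13 : (2 : ℕ) ^ n = 2 ^ 4 := by
      rw [hX, hY] at h; omega
    exact Nat.pow_right_injective (le_refl 2) h13

end Pool.Agent.TFA
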