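import Mathlib

set_option autoImplicit false
set_option linter.unusedSectionVars false

/-! Fourier analysis of integer valued functions on a finite abelian group. -/

noncomputable section

namespace Pool.Agent.TFA

open Finset ComplexConjugate

theorem conj_int (z : ℤ) : conj (z : ℂ) = (z : ℂ) := map_intCast (starRingEnd ℂ) z

section
variable {A : Type*} [AddCommGroup A] [Fintype A] [DecidableEq A]

/-- Fourier transform -/
def ft (f : A → ℤ) (χ : AddChar A ℂ) : ℂ := ∑ x, (f x : ℂ) * χ x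

/-- convolution -/
def conv (f g : A → ℤ) (x : A) : ℤ := ∑ y, f y * g (x - y)

theorem ft_inv (f : A → ℤ) (y : A) :
    ∑ χ : AddChar A ℂ, ft f χ * χ (-y) = (Fintype.card A : ℂ) * f y := by
  have h1 : ∀ χ : AddChar A ℂ, ft f χ * χ (-y) = ∑ x, (f x : ℂ) * χ (x - y) := by
    intro χ
    rw [ft, Finset.sum_mul]
    refine Finset.sum_congr rfl fun x _ => ?_
    rw [sub_eq_add_neg, AddChar.map_add_eq_mul, mul_assoc]
  rw [Finset.sum_congr rfl fun χ _ => h1 χ, Finset.sum_comm]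
  have h2 : ∀ x : A, ∑ χ : AddChar A ℂ, (f x : ℂ) * χ (x - y) =
      if x = y then (f x : ℂ) * (Fintype.card A : ℂ) else 0 := by
    intro x
    rw [← Finset.mul_sum, AddChar.sum_apply_eq_ite]
    by_cases h : x = y
    · rw [if_pos h, if_pos (by rw [h, sub_self])]
    · rw [if_neg h, if_neg (by intro h'; exact h (sub_eq_zero.1 h')), mul_zero]
  rw [Finset.sum_congr rfl fun x _ => h2 x, Finset.sum_ite_eq' Finset.univ y,
    if_pos (Finset.mem_univ y), mul_comm]

theorem ft_inj (f g : A → ℤ) (h : ∀ χ, ft f χ = ft g χ) : f = g := by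
  funext y
  have h1 := ft_inv f y
  have h2 := ft_inv g y
  rw [Finset.sum_congr rfl fun χ _ => by rw [h χ], h2] at h1
  have h3 : (Fintype.card A : ℂ) ≠ 0 := Nat.cast_ne_zero.2 Fintype.card_ne_zero
  have h4 := mul_left_cancel₀ h3 h1
  exact_mod_cast h4.symm

theorem ft_conv (f g : A → ℤ) (χ : AddChar A ℂ) : ft (conv f g) χ = ft f χ * ft g χ := by
  unfold ft conv
  rw [Finset.sum_mul_sum]
  push_cast
  simp only [Finset.sum_mul]
  rw [Finset.sum_comm]
  refine Finset.sum_congr rfl fun y _ => ?_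
  rw [← Equiv.sum_comp (Equiv.addRight y)]
  refine Finset.sum_congr rfl fun x _ => ?_
  rw [Equiv.coe_addRight, add_sub_cancel_right, AddChar.map_add_eq_mul]
  ring

theorem ft_zero (f : A → ℤ) : ft f 0 = ((∑ x, f x : ℤ) : ℂ) := by
  unfold ft
  push_cast
  simp

theorem ft_conj (f : A → ℤ) (χ : AddChar A ℂ) : conj (ft f χ) = ∑ x, (f x : ℂ) * χ (-x) := by
  unfold ft
  rw [map_sum]
  refine Finset.sum_congr rfl fun x _ => ?_
  rw [map_mul, AddChar.map_neg_eq_conj]
  congr 1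
  exact conj_int _

theorem ft_conj_even (f : A → ℤ) (hf : ∀ x, f (-x) = f x) (χ : AddChar A ℂ) :
    conj (ft f χ) = ft f χ := by
  rw [ft_conj, ← Equiv.sum_comp (Equiv.neg A)]
  refine Finset.sum_congr rfl fun x _ => ?_
  rw [Equiv.neg_apply, hf, neg_neg]

theorem char_integral (χ : AddChar A ℂ) (x : A) : IsIntegral ℤ (χ x) := by
  have h1 : χ x ^ (Fintype.card A) = 1 := by
    rw [← AddChar.map_nsmul_eq_pow, card_nsmul_eq_zero, AddChar.map_zero_eq_one]
  exact IsIntegral.of_pow Fintype.card_pos (by rw [h1]; exact isIntegral_one)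

theorem ft_integral (f : A → ℤ) (χ : AddChar A ℂ) : IsIntegral ℤ (ft f χ) := by
  unfold ft
  apply IsIntegral.sum
  intro x _
  apply IsIntegral.mul
  · exact isIntegral_algebraMap (R := ℤ) (A := ℂ) (x := f x)
  · exact char_integral χ x

theorem int_of_integral (z : ℂ) (hz : IsIntegral ℤ z) (b c : ℤ) (hb : b ≠ 0)
    (h : (b : ℂ) * z = (c : ℂ)) : ∃ w : ℤ, z = (w : ℂ) := by
  have hb' : (b : ℂ) ≠ 0 := by exact_mod_cast hb
  have h1 : z = algebraMap ℚ ℂ ((c : ℚ) / (b : ℚ)) := by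
    have h2 : algebraMap ℚ ℂ ((c : ℚ) / (b : ℚ)) = (c : ℂ) / (b : ℂ) := by simp
    rw [h2, eq_div_iff hb', mul_comm]
    exact h
  rw [h1] at hz
  have h3 : IsIntegral ℤ ((c : ℚ) / (b : ℚ)) :=
    (isIntegral_algebraMap_iff (algebraMap ℚ ℂ).injective).1 hz
  obtain ⟨w, hw⟩ := IsIntegrallyClosed.isIntegral_iff.1 h3
  refine ⟨w, ?_⟩
  rw [h1, ← hw]
  simp

/-- Parseval for functions with integral transform -/
theorem parseval (f g : A → ℤ) (F G : AddChar A ℂ → ℤ)
    (hF : ∀ χ ∈ (univ : Finset (AddChar A ℂ)).erase 0, ft f χ = (F χ : ℂ))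
    (hG : ∀ χ ∈ (univ : Finset (AddChar A ℂ)).erase 0, ft g χ = (G χ : ℂ)) :
    ∑ χ ∈ (univ : Finset (AddChar A ℂ)).erase 0, F χ * G χ + (∑ x, f x) * ∑ x, g x =
      (Fintype.card A : ℤ) * ∑ x, f x * g x := by
  have h1 : ∑ χ : AddChar A ℂ, ft f χ * conj (ft g χ) =
      (Fintype.card A : ℂ) * ∑ x, (f x : ℂ) * g x := by
    have h2 : ∀ χ : AddChar A ℂ, ft f χ * conj (ft g χ) =
        ∑ y, (g y : ℂ) * (ft f χ * χ (-y)) := by
      intro χ
      rw [ft_conj, Finset.mul_sum]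
      exact Finset.sum_congr rfl fun y _ => by ring
    rw [Finset.sum_congr rfl fun χ _ => h2 χ, Finset.sum_comm, Finset.mul_sum]
    refine Finset.sum_congr rfl fun y _ => ?_
    rw [← Finset.mul_sum, ft_inv]
    ring
  rw [← Finset.add_sum_erase _ _ (Finset.mem_univ (0 : AddChar A ℂ)), ft_zero, ft_zero] at h1
  have h3 : ∑ χ ∈ (univ : Finset (AddChar A ℂ)).erase 0, ft f χ * conj (ft g χ) =
      ((∑ χ ∈ (univ : Finset (AddChar A ℂ)).erase 0, F χ * G χ : ℤ) : ℂ) := by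
    push_cast
    refine Finset.sum_congr rfl fun χ hχ => ?_
    rw [hF χ hχ, hG χ hχ, conj_int]
  rw [h3, conj_int] at h1
  have h4 : (((∑ x, f x) * (∑ x, g x) + ∑ χ ∈ (univ : Finset (AddChar A ℂ)).erase 0, F χ * G χ : ℤ) : ℂ)
      = (((Fintype.card A : ℤ) * ∑ x, f x * g x : ℤ) : ℂ) := by
    push_cast
    push_cast at h1
    exact h1
  have h5 := Int.cast_injective (α := ℂ) h4
  linarith

theorem sum_transform (f : A → ℤ) (F : AddChar A ℂ → ℤ)
    (hF : ∀ χ ∈ (univ : Finset (AddChar A ℂ)).erase 0, ft f χ = (F χ : ℂ)) :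
    ∑ χ ∈ (univ : Finset (AddChar A ℂ)).erase 0, F χ + ∑ x, f x =
      (Fintype.card A : ℤ) * f 0 := by
  have h1 := ft_inv f 0
  rw [← Finset.add_sum_erase _ _ (Finset.mem_univ (0 : AddChar A ℂ)), ft_zero] at h1
  have h3 : ∑ χ ∈ (univ : Finset (AddChar A ℂ)).erase 0, ft f χ * χ (-0) =
      ((∑ χ ∈ (univ : Finset (AddChar A ℂ)).erase 0, F χ : ℤ) : ℂ) := by
    push_cast
    refine Finset.sum_congr rfl fun χ hχ => ?_
    rw [hF χ hχ, neg_zero, AddChar.map_zero_eq_one, mul_one]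
  rw [h3, AddChar.zero_apply, mul_one] at h1
  have h4 : ((∑ x, f x + ∑ χ ∈ (univ : Finset (AddChar A ℂ)).erase 0, F χ : ℤ) : ℂ)
      = (((Fintype.card A : ℤ) * f 0 : ℤ) : ℂ) := by
    push_cast
    push_cast at h1
    exact h1
  have h5 := Int.cast_injective (α := ℂ) h4
  linarith

/-- parity of a sum of an even function over a group of odd order -/
theorem parity_sum (hA : Odd (Fintype.card A)) (f : A → ℤ) (hf : ∀ x, f (-x) = f x) :
    (2 : ℤ) ∣ ∑ x, f x - f 0 := by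
  rw [← Finset.add_sum_erase _ _ (Finset.mem_univ (0 : A)), add_sub_cancel_left]
  have h := (ZMod.intCast_zmod_eq_zero_iff_dvd (∑ x ∈ (univ : Finset A).erase 0, f x) 2).1
  refine h ?_
  rw [Int.cast_sum]
  apply Finset.sum_involution (fun x _ => -x)
  · intro x _
    rw [hf]
    exact CharTwo.add_self_eq_zero _
  · intro x hx _ h0
    rw [Finset.mem_erase] at hx
    apply hx.1
    have h2 : (2 : ℕ) • x = 0 := by
      rw [two_nsmul]
      nth_rewrite 1 [← h0]
      exact neg_add_cancel x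
    have h3 : (Fintype.card A) • x = 0 := card_nsmul_eq_zero
    have h4 := (Nat.Coprime.gcd_eq_one ((Nat.coprime_two_left).2 hA))
    have h5 : addOrderOf x ∣ 2 := addOrderOf_dvd_of_nsmul_eq_zero h2
    have h6 : addOrderOf x ∣ Fintype.card A := addOrderOf_dvd_of_nsmul_eq_zero h3
    have h7 : addOrderOf x ∣ 1 := by rw [← h4]; exact Nat.dvd_gcd h5 h6
    exact AddMonoid.addOrderOf_eq_one_iff.1 (Nat.dvd_one.1 h7)
  · intro x _
    exact neg_neg x
  · intro x hx
    rw [Finset.mem_erase] at hx ⊢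
    exact ⟨by intro h0; exact hx.1 (neg_eq_zero.1 h0), Finset.mem_univ _⟩

end

end Pool.Agent.TFA
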