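import Pool.Agent.TFA.Char

set_option autoImplicit false
set_option linter.unusedSectionVars false

/-! Connection sets of triangle-free strongly regular Cayley graphs of abelian groups. -/

noncomputable section

namespace Pool.Agent.TFA

open Finset ComplexConjugate

section
variable {A : Type*} [AddCommGroup A] [Fintype A] [DecidableEq A]

/-- multipliers -/
theorem multiplier (D : A → ℤ) (hD : ∀ χ : AddChar A ℂ, ∃ s : ℤ, ft D χ = (s : ℂ)) (t : ℕ)
    (ht : (Fintype.card A).Coprime t) (x : A) : D (t • x) = D x := by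
  have ht' : (Nat.card A).Coprime t := by rw [Nat.card_eq_fintype_card]; exact ht
  let e : A ≃ A := nsmulCoprime ht'
  have he : ∀ x, e x = t • x := fun x => rfl
  have key : ∀ χ : AddChar A ℂ, ∑ x, (D x : ℂ) * χ (t • x) = ft D χ := by
    intro χ
    obtain ⟨s, hs⟩ := hD χ
    have hv : Fintype.card A ≠ 0 := Fintype.card_ne_zero
    have : NeZero (Fintype.card A) := ⟨hv⟩
    have hζ := Complex.isPrimitiveRoot_exp (Fintype.card A) hv
    set ζ := Complex.exp (2 * Real.pi * Complex.I / (Fintype.card A : ℂ)) with hζd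
    have h1 : ∀ x : A, ∃ i : ℕ, ζ ^ i = χ x := by
      intro x
      have h2 : χ x ^ (Fintype.card A) = 1 := by
        rw [← AddChar.map_nsmul_eq_pow, card_nsmul_eq_zero, AddChar.map_zero_eq_one]
      obtain ⟨i, _, hi⟩ := hζ.eq_pow_of_pow_eq_one h2
      exact ⟨i, hi⟩
    choose ex hex using h1
    let P : Polynomial ℤ := ∑ x, Polynomial.C (D x) * Polynomial.X ^ (ex x) - Polynomial.C s
    have hP : ∀ z : ℂ, Polynomial.aeval z P = ∑ x, (D x : ℂ) * z ^ (ex x) - (s : ℂ) := by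
      intro z
      simp [P]
    have hPζ : Polynomial.aeval ζ P = 0 := by
      rw [hP, ← hs, ft, sub_eq_zero]
      exact Finset.sum_congr rfl fun x _ => by rw [hex]
    have hint : IsIntegral ℤ ζ := hζ.isIntegral (Nat.pos_of_ne_zero hv)
    have hdvd : minpoly ℤ ζ ∣ P := minpoly.isIntegrallyClosed_dvd hint hPζ
    have h3 : minpoly ℤ ζ = minpoly ℤ (ζ ^ t) := hζ.minpoly_eq_pow_coprime ht.symm
    have h4 : Polynomial.aeval (ζ ^ t) P = 0 := by
      rw [h3] at hdvd
      obtain ⟨Q, hQ⟩ := hdvd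
      rw [hQ, map_mul, minpoly.aeval, zero_mul]
    rw [hP, sub_eq_zero, ← hs] at h4
    rw [← h4]
    refine Finset.sum_congr rfl fun x _ => ?_
    rw [AddChar.map_nsmul_eq_pow, ← hex, ← pow_mul, ← pow_mul, mul_comm t]
  have h5 : (fun y => D (e.symm y)) = D := by
    apply ft_inj
    intro χ
    rw [← key χ, ft, ← Equiv.sum_comp e]
    refine Finset.sum_congr rfl fun x _ => ?_
    rw [Equiv.symm_apply_apply, he]
  have h6 := congrFun h5 (e x)
  simp only [Equiv.symm_apply_apply] at h6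
  rw [← he, ← h6]

/-- connection set of a triangle-free strongly regular graph with `μ ≥ 1` -/
structure TF (D : A → ℤ) (k μ : ℤ) : Prop where
  val : ∀ x, D x = 0 ∨ D x = 1
  zero : D 0 = 0
  neg : ∀ x, D (-x) = D x
  conv : ∀ x, conv D D x = if x = 0 then k else μ * (1 - D x)
  mu1 : 1 ≤ μ
  muk : μ < k

namespace TF
variable {D : A → ℤ} {k μ : ℤ} (h : TF D k μ)
include h

theorem val_sq (x : A) : D x * D x = D x := by
  rcases h.val x with h1 | h1 <;> rw [h1] <;> rfl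

theorem sum : ∑ x, D x = k := by
  have h1 := h.conv 0
  rw [if_pos rfl] at h1
  rw [← h1]
  unfold Pool.Agent.TFA.conv
  refine Finset.sum_congr rfl fun x _ => ?_
  rw [zero_sub, h.neg, h.val_sq]

theorem ft_sq (χ : AddChar A ℂ) :
    ft D χ * ft D χ = ((k - μ : ℤ) : ℂ) + (μ : ℂ) * (∑ x, χ x) - (μ : ℂ) * ft D χ := by
  rw [← ft_conv]
  have h1 : ∀ x, ((Pool.Agent.TFA.conv D D x : ℤ) : ℂ) * χ x =
      (if x = 0 then ((k - μ : ℤ) : ℂ) else 0) + (μ : ℂ) * χ x - (μ : ℂ) * ((D x : ℂ) * χ x) := by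
    intro x
    rw [h.conv]
    by_cases hx : x = 0
    · subst hx
      rw [if_pos rfl, if_pos rfl, h.zero, AddChar.map_zero_eq_one]
      push_cast
      ring
    · rw [if_neg hx, if_neg hx]
      push_cast
      ring
  unfold ft
  rw [Finset.sum_congr rfl fun x _ => h1 x, Finset.sum_sub_distrib, Finset.sum_add_distrib,
    Finset.sum_ite_eq' Finset.univ (0 : A), if_pos (Finset.mem_univ _), Finset.mul_sum,
    Finset.mul_sum]

theorem quad (χ : AddChar A ℂ) (hχ : χ ≠ 0) :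
    ft D χ * ft D χ = ((k - μ : ℤ) : ℂ) - (μ : ℂ) * ft D χ := by
  rw [h.ft_sq χ, AddChar.sum_eq_zero_iff_ne_zero.2 hχ]
  ring

theorem param : k * k = k - μ + μ * (Fintype.card A : ℤ) - μ * k := by
  have h1 := h.ft_sq 0
  rw [ft_zero, h.sum] at h1
  have h2 : ∑ x : A, (0 : AddChar A ℂ) x = (Fintype.card A : ℂ) := by simp
  rw [h2] at h1
  have h3 : ((k * k : ℤ) : ℂ) = ((k - μ + μ * (Fintype.card A : ℤ) - μ * k : ℤ) : ℂ) := by
    push_cast
    push_cast at h1
    exact h1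
  exact Int.cast_injective h3

/-- the case of irrational eigenvalues -/
theorem nonsquare (hns : ¬ IsSquare (μ * μ + 4 * (k - μ))) :
    k = 2 ∧ μ = 1 ∧ Fintype.card A = 5 := by
  obtain ⟨s, hs⟩ : ∃ s : ℂ, s * s = ((μ * μ + 4 * (k - μ) : ℤ) : ℂ) := by
    obtain ⟨s, hs⟩ := IsAlgClosed.exists_pow_nat_eq (((μ * μ + 4 * (k - μ) : ℤ) : ℂ)) two_pos
    exact ⟨s, by rw [← sq]; exact hs⟩
  have h1 : ∀ χ : AddChar A ℂ, ∃ ε : ℤ, χ ≠ 0 → 2 * ft D χ + μ = (ε : ℂ) * s := by
    intro χ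
    by_cases hχ : χ = 0
    · exact ⟨0, fun h => absurd hχ h⟩
    · have h2 : (2 * ft D χ + μ) ^ 2 = s ^ 2 := by
        have h3 := h.quad χ hχ
        rw [sq s, hs]
        push_cast
        push_cast at h3
        linear_combination 4 * h3
      rcases sq_eq_sq_iff_eq_or_eq_neg.1 h2 with h3 | h3
      · exact ⟨1, fun _ => by rw [h3]; simp⟩
      · exact ⟨-1, fun _ => by rw [h3]; simp⟩
  choose ε hε using h1
  have h2 := ft_inv D 0
  rw [h.zero, ← Finset.add_sum_erase _ _ (Finset.mem_univ (0 : AddChar A ℂ)), ft_zero, h.sum,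
    neg_zero, AddChar.zero_apply, Int.cast_zero, mul_zero, mul_one] at h2
  have h3 : ∑ χ ∈ (univ : Finset (AddChar A ℂ)).erase 0, (2 * ft D χ + (μ : ℂ)) =
      ((∑ χ ∈ (univ : Finset (AddChar A ℂ)).erase 0, ε χ : ℤ) : ℂ) * s := by
    push_cast
    rw [Finset.sum_mul]
    refine Finset.sum_congr rfl fun χ hχ => ?_
    exact hε χ (Finset.ne_of_mem_erase hχ)
  have hcard : ((univ : Finset (AddChar A ℂ)).erase 0).card = Fintype.card A - 1 := by
    rw [Finset.card_erase_of_mem (Finset.mem_univ _), Finset.card_univ, AddChar.card_eq]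
  have hpos : 1 ≤ Fintype.card A := Fintype.card_pos
  have h4 : ∑ χ ∈ (univ : Finset (AddChar A ℂ)).erase 0, (2 * ft D χ + (μ : ℂ)) =
      ((-2 * k + μ * ((Fintype.card A : ℤ) - 1) : ℤ) : ℂ) := by
    rw [Finset.sum_add_distrib, ← Finset.mul_sum, Finset.sum_const, nsmul_eq_mul, hcard]
    have h5 : ∑ χ ∈ (univ : Finset (AddChar A ℂ)).erase 0, ft D χ = -(k : ℂ) := by
      have h6 : ∑ χ ∈ (univ : Finset (AddChar A ℂ)).erase 0, ft D χ * χ 0 =
          ∑ χ ∈ (univ : Finset (AddChar A ℂ)).erase 0, ft D χ :=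
        Finset.sum_congr rfl fun χ _ => by rw [AddChar.map_zero_eq_one, mul_one]
      rw [h6] at h2
      linear_combination h2
    rw [h5, Nat.cast_sub hpos]
    push_cast
    ring
  set e : ℤ := ∑ χ ∈ (univ : Finset (AddChar A ℂ)).erase 0, ε χ with he
  set c : ℤ := -2 * k + μ * ((Fintype.card A : ℤ) - 1) with hc
  have h5 : (c : ℂ) = (e : ℂ) * s := by rw [← h4, h3]
  have h6 : c * c = (μ * μ + 4 * (k - μ)) * (e * e) := by
    have : ((c * c : ℤ) : ℂ) = (((μ * μ + 4 * (k - μ)) * (e * e) : ℤ) : ℂ) := by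
      rw [Int.cast_mul, h5, Int.cast_mul, ← hs]
      push_cast
      ring
    exact Int.cast_injective this
  have he0 : e = 0 := by
    by_contra hne
    apply hns
    have h7 : e ^ 2 ∣ c ^ 2 := ⟨μ * μ + 4 * (k - μ), by rw [sq, sq, h6]; ring⟩
    obtain ⟨w, hw⟩ := (Int.pow_dvd_pow_iff two_ne_zero).1 h7
    refine ⟨w, ?_⟩
    have h8 : (e * e) * (w * w) = (e * e) * (μ * μ + 4 * (k - μ)) := by
      rw [hw] at h6
      linear_combination h6
    exact (mul_left_cancel₀ (mul_ne_zero hne hne) h8).symm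
  have hc0 : c = 0 := by
    rw [he0] at h6
    have : c * c = 0 := by rw [h6]; ring
    exact mul_self_eq_zero.1 this
  have hp := h.param
  have hm1 := h.mu1
  have hmk := h.muk
  have h9 : k * (3 - μ - k) = 0 := by
    have : 2 * k = μ * ((Fintype.card A : ℤ) - 1) := by linarith
    nlinarith
  have h10 : k = 3 - μ := by
    rcases mul_eq_zero.1 h9 with h' | h'
    · omega
    · omega
  have h11 : μ = 1 := by omega
  have h12 : k = 2 := by omega
  refine ⟨h12, h11, ?_⟩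
  rw [h11, h12] at hc
  omega

end TF

/-- the case of integral eigenvalues `r` and `-m` -/
structure TF2 (D : A → ℤ) (r m : ℤ) : Prop where
  tf : TF D (r * m + m - r) (m - r)
  r1 : 1 ≤ r
  rm : r < m

theorem TF.square {D : A → ℤ} {k μ : ℤ} (h : TF D k μ) (hs : IsSquare (μ * μ + 4 * (k - μ))) :
    ∃ r m : ℤ, k = r * m + m - r ∧ μ = m - r ∧ TF2 D r m := by
  obtain ⟨b', hb'⟩ := hs
  obtain ⟨b, hb0, hb⟩ : ∃ b : ℤ, 0 ≤ b ∧ b * b = μ * μ + 4 * (k - μ) :=
    ⟨|b'|, abs_nonneg _, by rw [abs_mul_abs_self]; exact hb'.symm⟩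
  have hm1 := h.mu1
  have hmk := h.muk
  have hbm : μ < b := by nlinarith
  have hpar : (2 : ℤ) ∣ b - μ := by
    have h1 : (2 : ℤ) ∣ (b - μ) * (b + μ) := ⟨2 * (k - μ), by linear_combination hb⟩
    rcases (Int.prime_two).dvd_or_dvd h1 with h2 | h2
    · exact h2
    · have : b - μ = (b + μ) - 2 * μ := by ring
      rw [this]
      exact dvd_sub h2 (Dvd.intro _ rfl)
  obtain ⟨r, hr⟩ := hpar
  have h1 : μ = (r + μ) - r := by ring
  have h2 : k = r * (r + μ) + (r + μ) - r := by nlinarith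
  refine ⟨r, r + μ, h2, h1, ?_, by omega, by omega⟩
  rw [← h1, ← h2]
  exact h

namespace TF2
variable {D : A → ℤ} {r m : ℤ} (h : TF2 D r m)
include h

theorem ft_val (χ : AddChar A ℂ) (hχ : χ ≠ 0) : ft D χ = (r : ℂ) ∨ ft D χ = -(m : ℂ) := by
  have h1 := h.tf.quad χ hχ
  have h2 : (ft D χ - r) * (ft D χ + m) = 0 := by
    push_cast at h1
    linear_combination h1
  rcases mul_eq_zero.1 h2 with h3 | h3
  · exact Or.inl (sub_eq_zero.1 h3)
  · exact Or.inr (eq_neg_of_add_eq_zero_left h3)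

end TF2

/-- indicator of the eigenvalue `r` -/
def rho (D : A → ℤ) (r : ℤ) (χ : AddChar A ℂ) : ℤ :=
  open scoped Classical in if ft D χ = (r : ℂ) then 1 else 0

theorem rho_val (D : A → ℤ) (r : ℤ) (χ : AddChar A ℂ) : rho D r χ = 0 ∨ rho D r χ = 1 := by
  unfold rho
  split_ifs
  · exact Or.inr rfl
  · exact Or.inl rfl

namespace TF2
variable {D : A → ℤ} {r m : ℤ} (h : TF2 D r m)
include h

theorem ft_rho (χ : AddChar A ℂ) (hχ : χ ≠ 0) :
    ft D χ = ((-m + (r + m) * rho D r χ : ℤ) : ℂ) := by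
  unfold rho
  by_cases h1 : ft D χ = (r : ℂ)
  · rw [if_pos h1, h1]
    push_cast
    ring
  · rw [if_neg h1]
    rcases h.ft_val χ hχ with h2 | h2
    · exact absurd h2 h1
    · rw [h2]
      push_cast
      ring

theorem ft_int (χ : AddChar A ℂ) : ∃ s : ℤ, ft D χ = (s : ℂ) := by
  by_cases hχ : χ = 0
  · subst hχ
    exact ⟨_, ft_zero D⟩
  · exact ⟨_, h.ft_rho χ hχ⟩

theorem mult (t : ℕ) (ht : (Fintype.card A).Coprime t) (x : A) : D (t • x) = D x :=
  multiplier D h.ft_int t ht x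

theorem exists_non : ∃ g : A, g ≠ 0 ∧ D g = 0 := by
  by_contra hcon
  push Not at hcon
  have h1 : ∀ g : A, g ≠ 0 → D g = 1 := fun g hg => (h.tf.val g).resolve_left (hcon g hg)
  have h2 := h.tf.sum
  rw [← Finset.add_sum_erase _ _ (Finset.mem_univ (0 : A)), h.tf.zero, zero_add,
    Finset.sum_congr rfl fun x hx => h1 x (Finset.ne_of_mem_erase hx), Finset.sum_const,
    Finset.card_erase_of_mem (Finset.mem_univ _), Finset.card_univ, nsmul_eq_mul, mul_one,
    Nat.cast_sub (Fintype.card_pos)] at h2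
  have h3 := h.tf.param
  have h4 := h.tf.mu1
  have h5 := h.tf.muk
  set k := r * m + m - r with hk
  set v : ℤ := (Fintype.card A : ℤ) with hv
  push_cast at h2
  have h6 : v = k + 1 := by linarith
  rw [h6] at h3
  have h7 : k * (k - 1) = 0 := by linear_combination h3
  rcases mul_eq_zero.1 h7 with h8 | h8 <;> omega

theorem beta_dvd : (r + m) ∣ (r * m + m - r) + m := by
  obtain ⟨g, hg, hDg⟩ := h.exists_non
  have h1 := ft_inv D g
  rw [hDg, Int.cast_zero, mul_zero, ← Finset.add_sum_erase _ _ (Finset.mem_univ (0 : AddChar A ℂ)),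
    ft_zero, h.tf.sum, AddChar.zero_apply, mul_one] at h1
  have h2 : ∑ χ : AddChar A ℂ, χ (-g) = 0 := by
    rw [AddChar.sum_apply_eq_ite, if_neg (neg_ne_zero.2 hg)]
  rw [← Finset.add_sum_erase _ _ (Finset.mem_univ (0 : AddChar A ℂ)), AddChar.zero_apply] at h2
  have h3 : ∑ χ ∈ (univ : Finset (AddChar A ℂ)).erase 0, ft D χ * χ (-g) =
      (-(m : ℂ)) * ∑ χ ∈ (univ : Finset (AddChar A ℂ)).erase 0, χ (-g) +
      ((r + m : ℤ) : ℂ) * ∑ χ ∈ (univ : Finset (AddChar A ℂ)).erase 0, (rho D r χ : ℂ) * χ (-g) := by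
    rw [Finset.mul_sum, Finset.mul_sum, ← Finset.sum_add_distrib]
    refine Finset.sum_congr rfl fun χ hχ => ?_
    rw [h.ft_rho χ (Finset.ne_of_mem_erase hχ)]
    push_cast
    ring
  rw [h3] at h1
  have h4 : IsIntegral ℤ (∑ χ ∈ (univ : Finset (AddChar A ℂ)).erase 0, (rho D r χ : ℂ) * χ (-g)) := by
    apply IsIntegral.sum
    intro χ _
    apply IsIntegral.mul
    · exact isIntegral_algebraMap (R := ℤ) (A := ℂ) (x := rho D r χ)
    · exact char_integral χ _
  have hpos : r + m ≠ 0 := by have := h.r1; have := h.rm; omega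
  have h5 : ((r + m : ℤ) : ℂ) *
      ∑ χ ∈ (univ : Finset (AddChar A ℂ)).erase 0, (rho D r χ : ℂ) * χ (-g) =
      ((-((r * m + m - r) + m) : ℤ) : ℂ) := by
    push_cast
    push_cast at h1
    linear_combination h1 + (m : ℂ) * h2
  obtain ⟨w, hw⟩ := int_of_integral _ h4 _ _ hpos h5
  rw [hw] at h5
  have h6 : (r + m) * w = -((r * m + m - r) + m) := by
    have : (((r + m) * w : ℤ) : ℂ) = ((-((r * m + m - r) + m) : ℤ) : ℂ) := by
      rw [Int.cast_mul]; exact h5
    exact Int.cast_injective this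
  exact ⟨-w, by linear_combination h6⟩

end TF2

end

end Pool.Agent.TFA
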