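import Pool.Agent.TFA.Basic
import Pool.Agent.TFA.Char

set_option autoImplicit false
set_option linter.unusedSectionVars false

/-! The 2-group part. -/

noncomputable section

namespace Pool.Agent.TFA

open Finset ComplexConjugate

section
variable {T : Type*} [AddCommGroup T] [Fintype T] [DecidableEq T]

theorem sum_char_erase (x : T) : ∑ χ ∈ (univ : Finset (AddChar T ℂ)).erase 0, χ x =
    (if x = 0 then (Fintype.card T : ℂ) else 0) - 1 := by
  have h := AddChar.sum_apply_eq_ite x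
  rw [← Finset.add_sum_erase _ _ (Finset.mem_univ (0 : AddChar T ℂ)), AddChar.zero_apply] at h
  rw [← h]
  ring

/-- the parameters of a symmetric sum-free set with two character values -/
theorem two_valued (D : T → ℤ) (hval : ∀ x, D x = 0 ∨ D x = 1) (hneg : ∀ x, D (-x) = D x)
    (hfree : ∀ x, D x = 1 → conv D D x = 0) (h0 : D 0 = 0) (hne : ∃ x, D x = 1)
    (θ F : ℤ) (ρ : AddChar T ℂ → ℤ) (hρ : ∀ χ, ρ χ = 0 ∨ ρ χ = 1)
    (hft : ∀ χ ∈ (univ : Finset (AddChar T ℂ)).erase 0, ft D χ = ((θ + F * ρ χ : ℤ) : ℂ)) :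
    (∑ x, D x) = -(θ * (θ + F)) - (2 * θ + F) ∧
    (∑ x, D x) * (∑ x, D x) =
      (2 * θ + F) * ((∑ x, D x) - (Fintype.card T : ℤ)) - θ * (θ + F) := by
  set k := ∑ x, D x with hk
  have hE : ∀ x : T, (Fintype.card T : ℤ) * conv D D x = k * k +
      (2 * θ + F) * ((Fintype.card T : ℤ) * D x - k) -
      θ * (θ + F) * ((if x = 0 then (Fintype.card T : ℤ) else 0) - 1) := by
    intro x
    have h1 := ft_inv (conv D D) x
    rw [← Finset.add_sum_erase _ _ (Finset.mem_univ (0 : AddChar T ℂ)), ft_conv, ft_zero, ← hk,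
      AddChar.zero_apply, mul_one] at h1
    have h2 := ft_inv D x
    rw [← Finset.add_sum_erase _ _ (Finset.mem_univ (0 : AddChar T ℂ)), ft_zero, ← hk,
      AddChar.zero_apply, mul_one] at h2
    have h3 : ∑ χ ∈ (univ : Finset (AddChar T ℂ)).erase 0, ft (conv D D) χ * χ (-x) =
        ((2 * θ + F : ℤ) : ℂ) * (∑ χ ∈ (univ : Finset (AddChar T ℂ)).erase 0, ft D χ * χ (-x)) -
        ((θ * (θ + F) : ℤ) : ℂ) * ∑ χ ∈ (univ : Finset (AddChar T ℂ)).erase 0, χ (-x) := by
      rw [Finset.mul_sum, Finset.mul_sum, ← Finset.sum_sub_distrib]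
      refine Finset.sum_congr rfl fun χ hχ => ?_
      rw [ft_conv, hft χ hχ]
      rcases hρ χ with h4 | h4 <;> rw [h4] <;> push_cast <;> ring
    rw [h3, sum_char_erase] at h1
    have h5 : (if -x = 0 then (Fintype.card T : ℂ) else 0) =
        (((if x = 0 then (Fintype.card T : ℤ) else 0) : ℤ) : ℂ) := by
      by_cases hx : x = 0
      · rw [if_pos hx, if_pos (neg_eq_zero.2 hx)]; push_cast; rfl
      · rw [if_neg hx, if_neg (fun h => hx (neg_eq_zero.1 h))]; push_cast; rfl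
    rw [h5] at h1
    have h6 : (((Fintype.card T : ℤ) * conv D D x : ℤ) : ℂ) = ((k * k +
      (2 * θ + F) * ((Fintype.card T : ℤ) * D x - k) -
      θ * (θ + F) * ((if x = 0 then (Fintype.card T : ℤ) else 0) - 1) : ℤ) : ℂ) := by
      push_cast
      push_cast at h1 h2
      linear_combination -h1 + (2 * (θ : ℂ) + F) * h2
    exact Int.cast_injective h6
  obtain ⟨x, hx⟩ := hne
  have hx0 : x ≠ 0 := by
    rintro rfl
    rw [h0] at hx
    exact absurd hx (by norm_num)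
  have hEx := hE x
  rw [hfree x hx, if_neg hx0, hx] at hEx
  have hE0 := hE 0
  have hc0 : conv D D 0 = k := by
    unfold conv
    rw [hk]
    refine Finset.sum_congr rfl fun y _ => ?_
    rw [zero_sub, hneg]
    rcases hval y with h1 | h1 <;> rw [h1] <;> rfl
  rw [hc0, if_pos rfl, h0] at hE0
  have hN : (Fintype.card T : ℤ) ≠ 0 := by exact_mod_cast Fintype.card_ne_zero
  constructor
  · have h1 : (Fintype.card T : ℤ) * k =
        (Fintype.card T : ℤ) * (-(θ * (θ + F)) - (2 * θ + F)) := by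
      linear_combination hE0 - hEx
    exact mul_left_cancel₀ hN h1
  · linear_combination -hEx

/-- the arithmetic of the 2-group -/
theorem arith2 (r m k : ℤ) (f n : ℕ) (hk : k = m * r + m - r) (hk1 : 1 ≤ k) (hkN : k < 2 ^ n)
    (hN : (4 : ℤ) ≤ 2 ^ n) (hF : r + m = 2 ^ f) (hF3 : (3 : ℤ) ≤ 2 ^ f)
    (h : (k + m) * (k - r) = (m - r) * 2 ^ n) :
    (r = 0 ∧ m = k ∧ (2 : ℤ) ^ n = 2 * m) ∨ (r = 1 ∧ m = 3 ∧ f = 2 ∧ n = 4) := by
  have h1 : (m - 1) * (r + 1) = k - 1 := by rw [hk]; ring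
  have hm1 : 1 ≤ m := by
    by_contra hcon
    have h2 : m - 1 < 0 := by omega
    have h3 : 0 < r + 1 := by omega
    have h4 : (m - 1) * (r + 1) < 0 := mul_neg_of_neg_of_pos h2 h3
    omega
  have hr1 : -1 ≤ r := by
    by_contra hcon
    have h2 : r + 1 < 0 := by omega
    have h3 : 0 < m - 1 := by omega
    have h4 : (m - 1) * (r + 1) < 0 := mul_neg_of_pos_of_neg h3 h2
    omega
  have hrm1 : r ≠ -1 := by
    rintro rfl
    have h2 : k = 1 := by rw [hk]; ring
    rw [h2] at h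
    have h3 : (m + 1) * (2 ^ n - 2) = 0 := by linear_combination -h
    rcases mul_eq_zero.1 h3 with h4 | h4 <;> omega
  by_cases hr0 : r = 0
  · left
    subst hr0
    have h2 : k = m := by rw [hk]; ring
    refine ⟨rfl, h2.symm, ?_⟩
    rw [h2] at h
    have h3 : m * (2 ^ n - 2 * m) = 0 := by linear_combination -h
    rcases mul_eq_zero.1 h3 with h4 | h4
    · omega
    · linarith
  · right
    have hr : 1 ≤ r := by omega
    have hm2 : 2 ≤ m := by
      by_contra hcon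
      have h2 : m = 1 := by omega
      subst h2
      have h3 : k = 1 := by rw [hk]; ring
      rw [h3] at h
      have h4 : (1 - r) * (2 ^ n - 2) = 0 := by linear_combination -h
      rcases mul_eq_zero.1 h4 with h5 | h5
      · have : r = 1 := by linarith
        rw [this] at hF
        omega
      · omega
    have hkr : 0 < k - r := by
      have : 0 ≤ r * (m - 2) := mul_nonneg (by omega) (by omega)
      have h3 : k - r = r * (m - 2) + m := by rw [hk]; ring
      omega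
    have hmr : r < m := by
      have h2 : 0 < (k + m) * (k - r) := mul_pos (by omega) hkr
      rw [h] at h2
      have h3 : (0 : ℤ) < 2 ^ n := by positivity
      have h4 : 0 < m - r := by
        by_contra hcon
        have : (m - r) * 2 ^ n ≤ 0 := mul_nonpos_of_nonpos_of_nonneg (by omega) h3.le
        omega
      omega
    -- pass to natural numbers
    obtain ⟨r', rfl⟩ : ∃ r' : ℕ, r = r' := ⟨r.toNat, by omega⟩
    obtain ⟨m', rfl⟩ : ∃ m' : ℕ, m = m' := ⟨m.toNat, by omega⟩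
    have hle : r' ≤ r' * m' + m' := by omega
    have hle2 : 2 * r' ≤ r' * m' + m' := by
      have h2 : (0 : ℤ) ≤ (r' : ℤ) * ((m' : ℤ) - 2) := mul_nonneg (by omega) (by omega)
      have : (2 : ℤ) * r' ≤ r' * m' + m' := by nlinarith
      exact_mod_cast this
    have hle3 : r' ≤ r' * m' + 2 * m' := by omega
    have hres := two_group_arith r' m' f n (by omega) (by omega) (by exact_mod_cast hF) ?_ ?_
    · obtain ⟨h5, h6, h7, h8⟩ := hres
      exact ⟨by rw [h5]; rfl, by rw [h6]; rfl, h7, h8⟩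
    · zify [hle]
      rw [hk] at hkN
      linarith
    · zify [hle2, hle3, (by omega : r' ≤ m')]
      rw [hk] at h
      linear_combination h

/-- sums of the transform against a function that is affine in the indicator -/
theorem ft_affine (j D : T → ℤ) (Y σ : ℤ) (hD0 : D 0 = 0) (hj0 : j 0 = 0)
    (h : ∀ x, x ≠ 0 → j x = Y + σ * D x) (χ : AddChar T ℂ) (hχ : χ ≠ 0) :
    ft j χ = -(Y : ℂ) + (σ : ℂ) * ft D χ := by
  have h1 : ∀ x, (j x : ℂ) * χ x = (Y : ℂ) * χ x + (σ : ℂ) * ((D x : ℂ) * χ x) -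
      (if x = 0 then (Y : ℂ) else 0) := by
    intro x
    by_cases hx : x = 0
    · subst hx
      rw [if_pos rfl, hD0, hj0, AddChar.map_zero_eq_one]
      push_cast
      ring
    · rw [if_neg hx, h x hx]
      push_cast
      ring
  unfold ft
  rw [Finset.sum_congr rfl fun x _ => h1 x, Finset.sum_sub_distrib, Finset.sum_add_distrib,
    Finset.sum_ite_eq' Finset.univ (0 : T), if_pos (Finset.mem_univ _), ← Finset.mul_sum,
    ← Finset.mul_sum, AddChar.sum_eq_zero_iff_ne_zero.2 hχ]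
  ring

/-- the slope argument -/
theorem slope_two (j D : T → ℤ) (ρ a : AddChar T ℂ → ℤ) (q M F : ℤ)
    (hF0 : 0 < F) (hq : ¬ (2 : ℤ) ∣ q)
    (hval : ∀ x, D x = 0 ∨ D x = 1) (hD0 : D 0 = 0) (hj0 : j 0 = 0)
    (hpar : ∀ x, (2 : ℤ) ∣ j x - D x) (hρ : ∀ χ, ρ χ = 0 ∨ ρ χ = 1)
    (hj : ∀ χ ∈ (univ : Finset (AddChar T ℂ)).erase 0, ft j χ = ((-M + F * ρ χ : ℤ) : ℂ))
    (hD : ∀ χ ∈ (univ : Finset (AddChar T ℂ)).erase 0, ft D χ = ((-(q * M) + F * a χ : ℤ) : ℂ))
    (hpar' : ∀ χ ∈ (univ : Finset (AddChar T ℂ)).erase 0, (2 : ℤ) ∣ a χ - ρ χ)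
    (hN : 2 ≤ Fintype.card T) :
    ∃ Y σ : ℤ, (2 : ℤ) ∣ Y ∧ (σ = 1 ∨ σ = -1) ∧ ∀ x, x ≠ 0 → j x = Y + σ * D x := by
  obtain ⟨p, hp⟩ : ∃ p, q = 2 * p + 1 := ⟨q / 2, by omega⟩
  choose i hi using hpar
  have hi' : ∀ x, j x = D x + 2 * i x := fun x => by have := hi x; linarith
  have hb : ∀ χ : AddChar T ℂ, ∃ b : ℤ, χ ≠ 0 → a χ = ρ χ + 2 * b := by
    intro χ
    by_cases hχ : χ = 0
    · exact ⟨0, fun h => absurd hχ h⟩
    · obtain ⟨b, hb⟩ := hpar' χ (Finset.mem_erase.2 ⟨hχ, Finset.mem_univ _⟩)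
      exact ⟨b, fun _ => by linarith⟩
  choose b hb using hb
  have hi0 : i 0 = 0 := by have := hi' 0; rw [hj0, hD0] at this; omega
  set Ω : Finset T := (univ : Finset T).erase 0 with hΩ
  set Ω' : Finset (AddChar T ℂ) := (univ : Finset (AddChar T ℂ)).erase 0 with hΩ'
  have hcard : (Ω.card : ℤ) = (Fintype.card T : ℤ) - 1 := by
    rw [hΩ, Finset.card_erase_of_mem (Finset.mem_univ _), Finset.card_univ]
    omega
  have hcard' : (Ω'.card : ℤ) = (Fintype.card T : ℤ) - 1 := by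
    rw [hΩ', Finset.card_erase_of_mem (Finset.mem_univ _), Finset.card_univ, AddChar.card_eq]
    omega
  have hne : Ω.Nonempty := by
    rw [← Finset.card_pos]
    omega
  have hne' : Ω'.Nonempty := by
    rw [← Finset.card_pos]
    omega
  -- transforms
  have hG1 : ∀ χ ∈ Ω', ft i χ = ((M * p - F * b χ : ℤ) : ℂ) := by
    intro χ hχ
    have h1 : ft j χ = ft D χ + 2 * ft i χ := by
      unfold ft
      rw [Finset.mul_sum, ← Finset.sum_add_distrib]
      refine Finset.sum_congr rfl fun x _ => ?_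
      rw [hi' x]
      push_cast
      ring
    rw [hj χ hχ, hD χ hχ, hb χ (Finset.ne_of_mem_erase hχ), hp] at h1
    have h2 : (2 : ℂ) ≠ 0 := two_ne_zero
    apply mul_left_cancel₀ h2
    push_cast
    push_cast at h1
    linear_combination -h1
  have hG2 : ∀ χ ∈ Ω', ft D χ = ((-(q * M) + F * (ρ χ + 2 * b χ) : ℤ) : ℂ) := by
    intro χ hχ
    rw [hD χ hχ, hb χ (Finset.ne_of_mem_erase hχ)]
  have e1 := parseval i i _ _ hG1 hG1
  have e2 := parseval D i _ _ hG2 hG1
  have e3 := sum_transform i _ hG1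
  have e4 := sum_transform D _ hG2
  rw [hi0, mul_zero] at e3
  rw [hD0, mul_zero] at e4
  -- names
  have s1 : ∑ x, i x = ∑ x ∈ Ω, i x := by
    rw [← Finset.add_sum_erase _ _ (Finset.mem_univ (0 : T)), hi0, zero_add]
  have s2 : ∑ x, D x = ∑ x ∈ Ω, D x := by
    rw [← Finset.add_sum_erase _ _ (Finset.mem_univ (0 : T)), hD0, zero_add]
  have s3 : ∑ x, i x * i x = ∑ x ∈ Ω, i x * i x := by
    rw [← Finset.add_sum_erase _ _ (Finset.mem_univ (0 : T)), hi0, zero_mul, zero_add]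
  have s4 : ∑ x, D x * i x = ∑ x ∈ Ω, D x * i x := by
    rw [← Finset.add_sum_erase _ _ (Finset.mem_univ (0 : T)), hi0, mul_zero, zero_add]
  rw [s1, s3] at e1
  rw [s1, s2, s4] at e2
  rw [s1] at e3
  rw [s2] at e4
  have t1 : ∑ χ ∈ Ω', (M * p - F * b χ) * (M * p - F * b χ) =
      (Ω'.card : ℤ) * (M * p * (M * p)) - 2 * (M * p) * F * (∑ χ ∈ Ω', b χ) +
        F * F * ∑ χ ∈ Ω', b χ * b χ := by
    have : ∀ χ ∈ Ω', (M * p - F * b χ) * (M * p - F * b χ) =
        M * p * (M * p) - 2 * (M * p) * F * b χ + F * F * (b χ * b χ) := fun χ _ => by ring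
    rw [Finset.sum_congr rfl this, Finset.sum_add_distrib, Finset.sum_sub_distrib,
      Finset.sum_const, nsmul_eq_mul, ← Finset.mul_sum, ← Finset.mul_sum]
  have t2 : ∑ χ ∈ Ω', (-(q * M) + F * (ρ χ + 2 * b χ)) * (M * p - F * b χ) =
      -(Ω'.card : ℤ) * (q * M * (M * p)) + q * M * F * (∑ χ ∈ Ω', b χ) +
        M * p * F * (∑ χ ∈ Ω', ρ χ) + 2 * (M * p) * F * (∑ χ ∈ Ω', b χ) -
        F * F * (∑ χ ∈ Ω', ρ χ * b χ) - 2 * (F * F) * ∑ χ ∈ Ω', b χ * b χ := by
    have : ∀ χ ∈ Ω', (-(q * M) + F * (ρ χ + 2 * b χ)) * (M * p - F * b χ) =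
        -(q * M * (M * p)) + q * M * F * b χ + M * p * F * ρ χ + 2 * (M * p) * F * b χ -
        F * F * (ρ χ * b χ) - 2 * (F * F) * (b χ * b χ) := fun χ _ => by ring
    rw [Finset.sum_congr rfl this, Finset.sum_sub_distrib, Finset.sum_sub_distrib,
      Finset.sum_add_distrib, Finset.sum_add_distrib, Finset.sum_add_distrib,
      Finset.sum_const, nsmul_eq_mul, ← Finset.mul_sum, ← Finset.mul_sum, ← Finset.mul_sum,
      ← Finset.mul_sum, ← Finset.mul_sum]
    ring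
  have t3 : ∑ χ ∈ Ω', (M * p - F * b χ) = (Ω'.card : ℤ) * (M * p) - F * ∑ χ ∈ Ω', b χ := by
    rw [Finset.sum_sub_distrib, Finset.sum_const, nsmul_eq_mul, ← Finset.mul_sum]
  have t4 : ∑ χ ∈ Ω', (-(q * M) + F * (ρ χ + 2 * b χ)) =
      -(Ω'.card : ℤ) * (q * M) + F * (∑ χ ∈ Ω', ρ χ) + 2 * F * ∑ χ ∈ Ω', b χ := by
    have : ∀ χ ∈ Ω', (-(q * M) + F * (ρ χ + 2 * b χ)) =
        -(q * M) + F * ρ χ + 2 * F * b χ := fun χ _ => by ring
    rw [Finset.sum_congr rfl this, Finset.sum_add_distrib, Finset.sum_add_distrib,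
      Finset.sum_const, nsmul_eq_mul, ← Finset.mul_sum, ← Finset.mul_sum]
    ring
  rw [t1] at e1
  rw [t2] at e2
  rw [t3] at e3
  rw [t4] at e4
  have hX := slope_nonneg Ω hne i D (fun x _ => hval x)
  have hY := slope_nonneg Ω' hne' b ρ (fun χ _ => hρ χ)
  set I1 := ∑ x ∈ Ω, i x with hI1
  set I2 := ∑ x ∈ Ω, i x * i x with hI2
  set D1 := ∑ x ∈ Ω, D x with hD1
  set D2 := ∑ x ∈ Ω, D x * i x with hD2
  set B1 := ∑ χ ∈ Ω', b χ with hB1
  set B2 := ∑ χ ∈ Ω', b χ * b χ with hB2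
  set P1 := ∑ χ ∈ Ω', ρ χ with hP1
  set P2 := ∑ χ ∈ Ω', ρ χ * b χ with hP2
  set N : ℤ := (Fintype.card T : ℤ) with hNd
  rw [hcard] at hX
  rw [hcard'] at hY e1 e2 e3 e4
  have hI : I1 = -((N - 1) * (M * p) - F * B1) := by linarith
  have hD' : D1 = -(-(N - 1) * (q * M) + F * P1 + 2 * F * B1) := by linarith
  have hzero : N * (((N - 1) * I2 - I1 * I1) + ((N - 1) * D2 - D1 * I1)) +
      F * F * (((N - 1) * B2 - B1 * B1) + ((N - 1) * P2 - P1 * B1)) = 0 := by
    rw [hI] at e1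
    rw [hI, hD'] at e2 ⊢
    linear_combination -(N - 1) * e1 - (N - 1) * e2
  have hNpos : 0 < N := by rw [hNd]; omega
  have hX0 : ((N - 1) * I2 - I1 * I1) + ((N - 1) * D2 - D1 * I1) = 0 := by
    have h1 : 0 ≤ F * F * (((N - 1) * B2 - B1 * B1) + ((N - 1) * P2 - P1 * B1)) :=
      mul_nonneg (mul_nonneg hF0.le hF0.le) hY
    have h2 : 0 ≤ N * (((N - 1) * I2 - I1 * I1) + ((N - 1) * D2 - D1 * I1)) :=
      mul_nonneg hNpos.le hX
    have h3 : N * (((N - 1) * I2 - I1 * I1) + ((N - 1) * D2 - D1 * I1)) = 0 := by linarith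
    rcases mul_eq_zero.1 h3 with h4 | h4
    · exact absurd h4 hNpos.ne'
    · exact h4
  have hX0' : ((Ω.card : ℤ) * ∑ s ∈ Ω, i s * i s - (∑ s ∈ Ω, i s) * ∑ s ∈ Ω, i s)
      + ((Ω.card : ℤ) * ∑ s ∈ Ω, D s * i s - (∑ s ∈ Ω, D s) * ∑ s ∈ Ω, i s) = 0 := by
    rw [hcard]
    exact hX0
  rcases slope_eq Ω hne i D (fun x _ => hval x) hX0' with ⟨y, hy⟩ | ⟨y, hy⟩
  · refine ⟨2 * y, 1, Dvd.intro _ rfl, Or.inl rfl, ?_⟩
    intro x hx
    rw [hi' x, hy x (Finset.mem_erase.2 ⟨hx, Finset.mem_univ _⟩)]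
    ring
  · refine ⟨2 * (y + 1), -1, Dvd.intro _ rfl, Or.inr rfl, ?_⟩
    intro x hx
    rw [hi' x, hy x (Finset.mem_erase.2 ⟨hx, Finset.mem_univ _⟩)]
    ring

/-- `ρ` takes both values -/
theorem rho_nonconst (j : T → ℤ) (ρ : AddChar T ℂ → ℤ) (q M R F : ℤ) (hR : 1 ≤ R) (hRM : R < M)
    (hF : R + M = F) (hq1 : 1 ≤ q) (hj0 : j 0 = 0) (hsum : ∑ x, j x = q * R * M + M - R)
    (hj : ∀ χ ∈ (univ : Finset (AddChar T ℂ)).erase 0, ft j χ = ((-M + F * ρ χ : ℤ) : ℂ))
    (c : ℤ) (hc : c = 0 ∨ c = 1)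
    (hconst : ∀ χ ∈ (univ : Finset (AddChar T ℂ)).erase 0, ρ χ = c) : False := by
  have h1 := sum_transform j _ hj
  rw [hj0, mul_zero, hsum, Finset.sum_congr rfl fun χ hχ => by rw [hconst χ hχ],
    Finset.sum_const, nsmul_eq_mul] at h1
  set n : ℤ := (((univ : Finset (AddChar T ℂ)).erase 0).card : ℤ) with hn
  have hn0 : 0 ≤ n := by rw [hn]; exact Int.natCast_nonneg _
  have hK : 0 < q * R * M := mul_pos (mul_pos (by omega) (by omega)) (by omega)
  rcases hc with rfl | rfl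
  · -- `n M = q R M + M - R`
    have h2 : M ∣ R := ⟨q * R + 1 - n, by linear_combination -h1⟩
    have h3 := Int.le_of_dvd (by omega) h2
    omega
  · have h2 : 0 ≤ n * (-M + F * 1) := by
      apply mul_nonneg hn0
      omega
    omega

/-- the main step for the 2-group -/
theorem two_group (n : ℕ) (hT : Fintype.card T = 2 ^ n) (j D : T → ℤ) (ρ a : AddChar T ℂ → ℤ)
    (q M R : ℤ) (f : ℕ) (hR : 1 ≤ R) (hRM : R < M) (hF : R + M = 2 ^ f) (hq : ¬ (2 : ℤ) ∣ q)
    (hq1 : 1 ≤ q)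
    (hval : ∀ x, D x = 0 ∨ D x = 1) (hneg : ∀ x, D (-x) = D x)
    (hfree : ∀ x, D x = 1 → conv D D x = 0) (hD0 : D 0 = 0) (hj0 : j 0 = 0)
    (hjpos : ∀ x, 0 ≤ j x)
    (hpar : ∀ x, (2 : ℤ) ∣ j x - D x) (hsum : ∑ x, j x = q * R * M + M - R)
    (hρ : ∀ χ, ρ χ = 0 ∨ ρ χ = 1)
    (hj : ∀ χ ∈ (univ : Finset (AddChar T ℂ)).erase 0, ft j χ = ((-M + 2 ^ f * ρ χ : ℤ) : ℂ))
    (hD : ∀ χ ∈ (univ : Finset (AddChar T ℂ)).erase 0,
      ft D χ = ((-(q * M) + 2 ^ f * a χ : ℤ) : ℂ))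
    (hpar' : ∀ χ ∈ (univ : Finset (AddChar T ℂ)).erase 0, (2 : ℤ) ∣ a χ - ρ χ) :
    q = 1 ∧ R = 1 ∧ M = 3 := by
  set F : ℤ := 2 ^ f with hFd
  have hF3 : 3 ≤ F := by omega
  -- both values
  have hex0 : ∃ χ ∈ (univ : Finset (AddChar T ℂ)).erase 0, ρ χ = 0 := by
    by_contra hcon
    push Not at hcon
    exact rho_nonconst j ρ q M R F hR hRM hF hq1 hj0 hsum hj 1 (Or.inr rfl)
      (fun χ hχ => (hρ χ).resolve_left (hcon χ hχ))
  have hex1 : ∃ χ ∈ (univ : Finset (AddChar T ℂ)).erase 0, ρ χ = 1 := by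
    by_contra hcon
    push Not at hcon
    exact rho_nonconst j ρ q M R F hR hRM hF hq1 hj0 hsum hj 0 (Or.inl rfl)
      (fun χ hχ => (hρ χ).resolve_right (hcon χ hχ))
  obtain ⟨χ0, hχ0, hρ0⟩ := hex0
  obtain ⟨χ1, hχ1, hρ1⟩ := hex1
  have hne01 : χ0 ≠ χ1 := by
    rintro rfl
    rw [hρ0] at hρ1
    exact absurd hρ1 (by norm_num)
  have hN3 : 3 ≤ Fintype.card T := by
    have h1 : ({χ0, χ1} : Finset (AddChar T ℂ)) ⊆ (univ : Finset (AddChar T ℂ)).erase 0 := by
      intro χ hχ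
      rw [Finset.mem_insert, Finset.mem_singleton] at hχ
      rcases hχ with rfl | rfl
      · exact hχ0
      · exact hχ1
    have h2 := Finset.card_le_card h1
    rw [Finset.card_pair hne01, Finset.card_erase_of_mem (Finset.mem_univ _), Finset.card_univ,
      AddChar.card_eq] at h2
    omega
  have hN4 : 4 ≤ Fintype.card T := by
    have h1 : Fintype.card T ≠ 3 := by
      rw [hT]
      intro h3
      rcases n with _ | n
      · norm_num at h3
      · rw [pow_succ] at h3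
        omega
    omega
  obtain ⟨Y, σ, hY, hσ, hjx⟩ := slope_two j D ρ a q M F (by omega) hq hval hD0 hj0 hpar hρ hj hD
    hpar' (by omega)
  have haff := ft_affine j D Y σ hD0 hj0 hjx
  -- nonempty
  have hDne : ∃ x, D x = 1 := by
    by_contra hcon
    push Not at hcon
    have hD0' : ∀ x, D x = 0 := fun x => (hval x).resolve_right (hcon x)
    have hft0 : ∀ χ, ft D χ = 0 := by
      intro χ
      unfold ft
      exact Finset.sum_eq_zero fun x _ => by rw [hD0' x]; simp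
    have h1 := haff χ0 (Finset.ne_of_mem_erase hχ0)
    have h2 := haff χ1 (Finset.ne_of_mem_erase hχ1)
    rw [hft0, hj χ0 hχ0, hρ0] at h1
    rw [hft0, hj χ1 hχ1, hρ1] at h2
    have h3 : ((-M + F * 0 : ℤ) : ℂ) = ((-M + F * 1 : ℤ) : ℂ) := by rw [h1, h2]
    have h4 := Int.cast_injective h3
    omega
  -- the sum of `j`
  have hsum2 : ∑ x, j x = ((Fintype.card T : ℤ) - 1) * Y + σ * ∑ x, D x := by
    have h1 : ∀ x, j x = Y + σ * D x - (if x = 0 then Y else 0) := by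
      intro x
      by_cases hx : x = 0
      · subst hx
        rw [if_pos rfl, hD0, hj0]; ring
      · rw [if_neg hx, hjx x hx]; ring
    rw [Finset.sum_congr rfl fun x _ => h1 x, Finset.sum_sub_distrib, Finset.sum_add_distrib,
      Finset.sum_const, ← Finset.mul_sum, Finset.sum_ite_eq' Finset.univ (0 : T),
      if_pos (Finset.mem_univ _), Finset.card_univ, nsmul_eq_mul]
    ring
  -- the two values of `D`
  obtain ⟨θ, ρ', hρ', hftD, hθ⟩ : ∃ (θ : ℤ) (ρ' : AddChar T ℂ → ℤ),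
      (∀ χ, ρ' χ = 0 ∨ ρ' χ = 1) ∧
      (∀ χ ∈ (univ : Finset (AddChar T ℂ)).erase 0, ft D χ = ((θ + F * ρ' χ : ℤ) : ℂ)) ∧
      ((σ = 1 ∧ θ = Y - M) ∨ (σ = -1 ∧ θ = -(Y + R))) := by
    rcases hσ with rfl | rfl
    · refine ⟨Y - M, ρ, hρ, ?_, Or.inl ⟨rfl, rfl⟩⟩
      intro χ hχ
      have h1 := haff χ (Finset.ne_of_mem_erase hχ)
      rw [hj χ hχ] at h1
      push_cast
      push_cast at h1
      linear_combination -h1
    · refine ⟨-(Y + R), fun χ => 1 - ρ χ, ?_, ?_, Or.inr ⟨rfl, rfl⟩⟩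
      · intro χ
        show 1 - ρ χ = 0 ∨ 1 - ρ χ = 1
        rcases hρ χ with h1 | h1 <;> rw [h1] <;> norm_num
      · intro χ hχ
        have h1 := haff χ (Finset.ne_of_mem_erase hχ)
        rw [hj χ hχ] at h1
        have h2 : (F : ℂ) = R + M := by rw [← hF]; push_cast; rfl
        push_cast
        push_cast at h1
        rw [h2] at h1 ⊢
        linear_combination h1
  obtain ⟨hk1, hk2⟩ := two_valued D hval hneg hfree hD0 hDne θ F ρ' hρ' hftD
  have hkpos : 1 ≤ ∑ x, D x := by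
    obtain ⟨x, hx⟩ := hDne
    have h1 : D x ≤ ∑ y, D y := Finset.single_le_sum (fun y _ => by
      rcases hval y with h | h <;> rw [h] <;> norm_num) (Finset.mem_univ x)
    omega
  have hkN : ∑ x, D x < (Fintype.card T : ℤ) := by
    rw [← Finset.add_sum_erase _ _ (Finset.mem_univ (0 : T)), hD0, zero_add]
    have h1 : ∑ x ∈ (univ : Finset T).erase 0, D x ≤ ∑ _x ∈ (univ : Finset T).erase 0, (1 : ℤ) :=
      Finset.sum_le_sum fun x _ => by rcases hval x with h | h <;> rw [h]; norm_num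
    rw [Finset.sum_const, Finset.card_erase_of_mem (Finset.mem_univ _), Finset.card_univ,
      nsmul_eq_mul, mul_one, Nat.cast_sub (by omega)] at h1
    push_cast at h1
    omega
  set k := ∑ x, D x with hkd
  have hcardT : (Fintype.card T : ℤ) = 2 ^ n := by rw [hT]; push_cast; rfl
  rw [hcardT] at hkN hk2 hsum2
  have hN4' : (4 : ℤ) ≤ 2 ^ n := by rw [← hcardT]; exact_mod_cast hN4
  have hres := arith2 (θ + F) (-θ) k f n (by rw [hk1]; ring) hkpos hkN hN4' (by rw [← hFd]; ring)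
    hF3 (by linear_combination hk2)
  rcases hres with ⟨h1, h2, h3⟩ | ⟨h1, h2, h3, h4⟩
  · exfalso
    have h5 : θ = -F := by omega
    rcases hθ with ⟨h6, h7⟩ | ⟨h6, h7⟩
    · -- `Y = -R < 0`
      have h8 : Y = -R := by omega
      -- an element outside
      have h9 : ∃ x, x ≠ 0 ∧ D x = 0 := by
        by_contra hcon
        push Not at hcon
        have h10 : ∀ x ∈ (univ : Finset T).erase 0, D x = 1 := fun x hx =>
          (hval x).resolve_left (hcon x (Finset.ne_of_mem_erase hx))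
        have h11 : k = (Fintype.card T : ℤ) - 1 := by
          rw [hkd, ← Finset.add_sum_erase _ _ (Finset.mem_univ (0 : T)), hD0, zero_add,
            Finset.sum_congr rfl h10, Finset.sum_const,
            Finset.card_erase_of_mem (Finset.mem_univ _), Finset.card_univ, nsmul_eq_mul, mul_one,
            Nat.cast_sub (by omega)]
          push_cast
          rfl
        rw [hcardT] at h11
        omega
      obtain ⟨x, hx, hDx⟩ := h9
      have h10 := hjx x hx
      have h11 := hjpos x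
      rw [hDx, mul_zero, add_zero] at h10
      omega
    · have h8 : Y = M := by omega
      rw [hsum, h6, h8, h3, ← h2, h5] at hsum2
      have h9 : M * (q * R - (2 * F - 3)) = 0 := by
        rw [← hF] at hsum2 ⊢
        linear_combination hsum2
      rcases mul_eq_zero.1 h9 with h10 | h10
      · omega
      · rw [h8] at hY
        have hF2 : (2 : ℤ) ∣ F := by
          rw [hFd]
          rcases f with _ | f
          · norm_num at hFd; omega
          · exact ⟨2 ^ f, by rw [pow_succ]; ring⟩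
        have hR2 : (2 : ℤ) ∣ R := by omega
        have h11 : (2 : ℤ) ∣ q * R := Dvd.dvd.mul_left hR2 q
        omega
  · subst h3
    subst h4
    have hF4 : F = 4 := by rw [hFd]; norm_num
    have h5 : θ = -3 := by omega
    have hR1 : R = 1 := by omega
    have hM3 : M = 3 := by omega
    have hk5 : k = 5 := by rw [hk1, h5, hF4]; norm_num
    refine ⟨?_, hR1, hM3⟩
    rw [hsum, hR1, hM3, hk5] at hsum2
    rcases hθ with ⟨h6, h7⟩ | ⟨h6, h7⟩
    · have h8 : Y = 0 := by omega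
      rw [h6, h8] at hsum2
      norm_num at hsum2
      omega
    · have h8 : Y = 2 := by omega
      rw [h6, h8] at hsum2
      norm_num at hsum2
      omega

end

end Pool.Agent.TFA
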