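import Pool.Agent.TFA.General
import Pool.Agent.TFA.TwoGroup

set_option autoImplicit false
set_option linter.unusedSectionVars false

/-! The group `T × H` with `|T|` a power of two and `|H|` odd. -/

noncomputable section

namespace Pool.Agent.TFA

open Finset ComplexConjugate

section
variable {T H : Type*} [AddCommGroup T] [Fintype T] [DecidableEq T] [AddCommGroup H] [Fintype H]
  [DecidableEq H]

theorem nsmul_modEq {G : Type*} [AddGroup G] [Fintype G] (a b : ℕ)
    (h : a ≡ b [MOD Fintype.card G]) (x : G) : a • x = b • x := by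
  rw [← mod_card_nsmul x a, ← mod_card_nsmul x b, h]

/-- the product character -/
def chi (ψ : AddChar T ℂ) (φ : AddChar H ℂ) : AddChar (T × H) ℂ :=
  (ψ.compAddMonoidHom (AddMonoidHom.fst T H)) * (φ.compAddMonoidHom (AddMonoidHom.snd T H))

theorem chi_apply (ψ : AddChar T ℂ) (φ : AddChar H ℂ) (x : T × H) :
    chi ψ φ x = ψ x.1 * φ x.2 := rfl

theorem chi_ne_zero (ψ : AddChar T ℂ) (φ : AddChar H ℂ) (hψ : ψ ≠ 0) : chi ψ φ ≠ 0 := by
  rw [AddChar.ne_zero_iff] at hψ ⊢
  obtain ⟨x, hx⟩ := hψ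
  refine ⟨(x, 0), ?_⟩
  rw [chi_apply, AddChar.map_zero_eq_one, mul_one]
  exact hx

theorem ft_chi (D : T × H → ℤ) (ψ : AddChar T ℂ) (φ : AddChar H ℂ) :
    ft D (chi ψ φ) = ∑ x : T, ∑ y : H, (D (x, y) : ℂ) * (ψ x * φ y) := by
  unfold ft
  rw [Fintype.sum_prod_type]
  rfl

theorem ft_fst (D : T × H → ℤ) (ψ : AddChar T ℂ) :
    ft (fun x => ∑ y, D (x, y)) ψ = ft D (chi ψ 0) := by
  rw [ft_chi]
  unfold ft
  refine Finset.sum_congr rfl fun x _ => ?_
  push_cast
  rw [Finset.sum_mul]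
  refine Finset.sum_congr rfl fun y _ => ?_
  simp

theorem sum_ft_chi (D : T × H → ℤ) (ψ : AddChar T ℂ) :
    ∑ φ : AddChar H ℂ, ft D (chi ψ φ) = (Fintype.card H : ℂ) * ft (fun x => D (x, 0)) ψ := by
  have h1 : ∀ φ : AddChar H ℂ, ft D (chi ψ φ) =
      ∑ x : T, ∑ y : H, ((D (x, y) : ℂ) * ψ x) * φ y := by
    intro φ
    rw [ft_chi]
    exact Finset.sum_congr rfl fun x _ => Finset.sum_congr rfl fun y _ => by ring
  rw [Finset.sum_congr rfl fun φ _ => h1 φ, Finset.sum_comm]
  unfold ft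
  rw [Finset.mul_sum]
  refine Finset.sum_congr rfl fun x _ => ?_
  rw [Finset.sum_comm]
  have h2 : ∀ y : H, ∑ φ : AddChar H ℂ, ((D (x, y) : ℂ) * ψ x) * φ y =
      if y = 0 then ((D (x, y) : ℂ) * ψ x) * (Fintype.card H : ℂ) else 0 := by
    intro y
    rw [← Finset.mul_sum, AddChar.sum_apply_eq_ite]
    by_cases h : y = 0
    · rw [if_pos h, if_pos h]
    · rw [if_neg h, if_neg h, mul_zero]
  rw [Finset.sum_congr rfl fun y _ => h2 y, Finset.sum_ite_eq' Finset.univ (0 : H),
    if_pos (Finset.mem_univ _)]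
  ring

namespace TF2
variable {D : T × H → ℤ} {r m : ℤ} (h : TF2 D r m) (n : ℕ) (hT : Fintype.card T = 2 ^ n)
  (hH : Odd (Fintype.card H))
include h hT hH

theorem coprime_TH : (Fintype.card T).Coprime (Fintype.card H) := by
  rw [hT]
  exact Nat.Coprime.pow_left n ((Nat.coprime_two_left).2 hH)

/-- multipliers acting on `H` only -/
theorem multH (b : ℕ) (hb : (Fintype.card H).Coprime b) (x : T) (y : H) :
    D (x, b • y) = D (x, y) := by
  have hco := h.coprime_TH n hT hH
  obtain ⟨t, ht1, ht2⟩ := Nat.chineseRemainder hco 1 b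
  have hc1 : (Fintype.card T).Coprime t := by
    rw [Nat.coprime_comm]
    unfold Nat.Coprime
    rw [Nat.ModEq.gcd_eq ht1]
    exact Nat.gcd_one_left _
  have hc2 : (Fintype.card H).Coprime t := by
    rw [Nat.coprime_comm]
    unfold Nat.Coprime
    rw [Nat.ModEq.gcd_eq ht2]
    exact hb.symm
  have hc : (Fintype.card (T × H)).Coprime t := by
    rw [Fintype.card_prod]
    exact Nat.Coprime.mul_left hc1 hc2
  have h1 := h.mult t hc (x, y)
  rw [← h1, Prod.smul_mk, nsmul_modEq t 1 ht1 x, nsmul_modEq t b ht2 y, one_nsmul]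

theorem negH (x : T) (y : H) : D (x, -y) = D (x, y) := by
  have hpos : 0 < Fintype.card H := Fintype.card_pos
  have h1 := h.multH n hT hH (Fintype.card H - 1) (by
    rw [Nat.coprime_comm]
    exact (Nat.coprime_self_sub_left hpos).2 (Nat.coprime_one_left _)) x y
  have h2 : (Fintype.card H - 1) • y = -y := by
    rw [eq_neg_iff_add_eq_zero]
    nth_rewrite 2 [← one_nsmul y]
    rw [← add_nsmul, Nat.sub_add_cancel hpos, card_nsmul_eq_zero]
  rw [h2] at h1
  exact h1

theorem freeH (g : T × H) (hg : D g = 1) : conv D D g = 0 := by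
  rw [h.tf.conv, if_neg, hg]
  · ring
  · rintro rfl
    rw [h.tf.zero] at hg
    exact absurd hg (by norm_num)

theorem free_mul (g g' : T × H) (hg : D g = 1) : D g' * D (g - g') = 0 := by
  have h1 := h.freeH n hT hH g hg
  unfold conv at h1
  have h2 : ∀ y ∈ (univ : Finset (T × H)), 0 ≤ D y * D (g - y) := by
    intro y _
    rcases h.tf.val y with h3 | h3 <;> rcases h.tf.val (g - y) with h4 | h4 <;>
      rw [h3, h4] <;> norm_num
  exact (Finset.sum_eq_zero_iff_of_nonneg h2).1 h1 g' (Finset.mem_univ _)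

theorem zeroH (y : H) : D (0, y) = 0 := by
  by_contra hcon
  have h1 : D (0, y) = 1 := (h.tf.val _).resolve_left hcon
  have h2 := h.multH n hT hH 2 ((Nat.coprime_two_right).2 hH) 0 y
  rw [h1] at h2
  have h3 := h.free_mul n hT hH (0, 2 • y) (0, y) h2
  rw [h1, one_mul, Prod.mk_sub_mk, sub_zero, two_nsmul, add_sub_cancel_right] at h3
  exact hcon h3

/-- the main theorem for `T × H` -/
theorem main : r = 1 ∧ m = 3 := by
  have hr1 := h.r1
  have hrm := h.rm
  -- β = 2^f q
  obtain ⟨β, hβ⟩ : ∃ β : ℕ, r + m = β := ⟨(r + m).toNat, by omega⟩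
  have hβ0 : β ≠ 0 := by omega
  obtain ⟨f, q', hq'odd, hβq⟩ := Nat.exists_eq_two_pow_mul_odd hβ0
  obtain ⟨q, hq⟩ : ∃ q : ℤ, q = q' := ⟨_, rfl⟩
  have hβ' : r + m = 2 ^ f * q := by rw [hβ, hβq, hq]; push_cast; ring
  have hqodd : ¬ (2 : ℤ) ∣ q := by
    rw [hq]
    intro h2
    have : (2 : ℕ) ∣ q' := by exact_mod_cast h2
    exact (Nat.not_even_iff_odd.2 hq'odd) (even_iff_two_dvd.2 this)
  have hq1 : 1 ≤ q := by
    have : q' ≠ 0 := by rintro rfl; exact absurd hq'odd (by decide)
    omega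
  have hqT : IsCoprime q ((2 : ℤ) ^ n) := by
    apply IsCoprime.pow_right
    rw [hq]
    have : IsCoprime ((q' : ℕ) : ℤ) ((2 : ℕ) : ℤ) :=
      Nat.isCoprime_iff_coprime.2 ((Nat.coprime_two_right).2 hq'odd)
    exact this
  have hcT : (Fintype.card T : ℤ) = 2 ^ n := by rw [hT]; push_cast; rfl
  -- the function `nf`
  set nf : T → ℤ := fun x => ∑ y, D (x, y) with hnf
  set D0 : T → ℤ := fun x => D (x, 0) with hD0
  have hnf0 : nf 0 = 0 := Finset.sum_eq_zero fun y _ => h.zeroH n hT hH y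
  have hsumnf : ∑ x, nf x = r * m + m - r := by
    rw [← h.tf.sum, Fintype.sum_prod_type]
  set ρ : AddChar T ℂ → ℤ := fun ψ => rho D r (chi ψ 0) with hρ
  have hftn : ∀ ψ ∈ (univ : Finset (AddChar T ℂ)).erase 0,
      ft nf ψ = ((-m + (r + m) * ρ ψ : ℤ) : ℂ) := by
    intro ψ hψ
    rw [hnf, ft_fst, h.ft_rho _ (chi_ne_zero ψ 0 (Finset.ne_of_mem_erase hψ))]
  have hβdvd := h.beta_dvd
  have hqβ : q ∣ r + m := ⟨2 ^ f, by rw [hβ']; ring⟩
  -- q ∣ m
  have hqm : q ∣ m := by
    have h1 := sum_transform nf _ hftn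
    rw [hnf0, mul_zero, hsumnf, Finset.sum_add_distrib, Finset.sum_const, ← Finset.mul_sum,
      Finset.card_erase_of_mem (Finset.mem_univ _), Finset.card_univ, AddChar.card_eq,
      nsmul_eq_mul, Nat.cast_sub Fintype.card_pos, hcT] at h1
    push_cast at h1
    have h2 : r + m ∣ m * 2 ^ n := by
      have h3 : m * 2 ^ n = (r * m + m - r) + m +
          (r + m) * ∑ ψ ∈ (univ : Finset (AddChar T ℂ)).erase 0, ρ ψ := by linear_combination -h1
      rw [h3]
      exact dvd_add hβdvd (Dvd.intro _ rfl)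
    exact hqT.dvd_of_dvd_mul_right (hqβ.trans h2)
  obtain ⟨M, hM⟩ := hqm
  have hqr : q ∣ r := by
    have h1 : r = (r + m) - m := by ring
    rw [h1]
    exact dvd_sub hqβ ⟨M, hM⟩
  obtain ⟨R, hR⟩ := hqr
  have hRM : R + M = 2 ^ f := by
    have h1 : q * (R + M) = q * 2 ^ f := by rw [mul_add, ← hR, ← hM, hβ']; ring
    exact mul_left_cancel₀ (by omega) h1
  have hR1 : 1 ≤ R := by
    by_contra hcon
    have : q * R ≤ 0 := mul_nonpos_of_nonneg_of_nonpos (by omega) (by omega)
    omega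
  have hRM' : R < M := by
    rw [hR, hM] at hrm
    exact lt_of_mul_lt_mul_left hrm (by omega)
  -- q ∣ nf x
  have hqn : ∀ x, q ∣ nf x := by
    intro x
    by_cases hx : x = 0
    · rw [hx, hnf0]; exact dvd_zero _
    · have h1 := ft_inv nf x
      rw [← Finset.add_sum_erase _ _ (Finset.mem_univ (0 : AddChar T ℂ)), ft_zero, hsumnf,
        AddChar.zero_apply, mul_one] at h1
      have h3 : ∑ ψ ∈ (univ : Finset (AddChar T ℂ)).erase 0, ft nf ψ * ψ (-x) =
          (-(m : ℂ)) * ∑ ψ ∈ (univ : Finset (AddChar T ℂ)).erase 0, ψ (-x) +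
          ((r + m : ℤ) : ℂ) *
            ∑ ψ ∈ (univ : Finset (AddChar T ℂ)).erase 0, (ρ ψ : ℂ) * ψ (-x) := by
        rw [Finset.mul_sum, Finset.mul_sum, ← Finset.sum_add_distrib]
        refine Finset.sum_congr rfl fun ψ hψ => ?_
        rw [hftn ψ hψ]
        push_cast
        ring
      rw [h3, sum_char_erase, if_neg (fun h => hx (neg_eq_zero.1 h))] at h1
      have h4 : IsIntegral ℤ
          (∑ ψ ∈ (univ : Finset (AddChar T ℂ)).erase 0, (ρ ψ : ℂ) * ψ (-x)) := by
        apply IsIntegral.sum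
        intro ψ _
        apply IsIntegral.mul
        · exact isIntegral_algebraMap (R := ℤ) (A := ℂ) (x := ρ ψ)
        · exact char_integral ψ _
      have h5 : ((r + m : ℤ) : ℂ) *
          ∑ ψ ∈ (univ : Finset (AddChar T ℂ)).erase 0, (ρ ψ : ℂ) * ψ (-x) =
          ((2 ^ n * nf x - ((r * m + m - r) + m) : ℤ) : ℂ) := by
        have h6 : (Fintype.card T : ℂ) = ((2 ^ n : ℤ) : ℂ) := by rw [← hcT]; push_cast; rfl
        rw [h6] at h1
        push_cast
        push_cast at h1
        linear_combination h1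
      obtain ⟨w, hw⟩ := int_of_integral _ h4 _ _ (by omega) h5
      rw [hw] at h5
      have h6 : (r + m) * w = 2 ^ n * nf x - ((r * m + m - r) + m) := by
        have : (((r + m) * w : ℤ) : ℂ) =
            ((2 ^ n * nf x - ((r * m + m - r) + m) : ℤ) : ℂ) := by
          rw [Int.cast_mul]; exact h5
        exact Int.cast_injective this
      have h7 : r + m ∣ 2 ^ n * nf x := by
        have h8 : 2 ^ n * nf x = ((r * m + m - r) + m) + (r + m) * w := by linear_combination -h6
        rw [h8]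
        exact dvd_add hβdvd (Dvd.intro _ rfl)
      exact hqT.dvd_of_dvd_mul_left (hqβ.trans h7)
  choose j hj using hqn
  -- transform of j
  have hq0 : (q : ℂ) ≠ 0 := by exact_mod_cast (by omega : q ≠ 0)
  have hftj : ∀ ψ ∈ (univ : Finset (AddChar T ℂ)).erase 0,
      ft j ψ = ((-M + 2 ^ f * ρ ψ : ℤ) : ℂ) := by
    intro ψ hψ
    have h1 : ft nf ψ = (q : ℂ) * ft j ψ := by
      unfold ft
      rw [Finset.mul_sum]
      refine Finset.sum_congr rfl fun x _ => ?_
      rw [hj x]
      push_cast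
      ring
    rw [hftn ψ hψ, hβ', hM] at h1
    apply mul_left_cancel₀ hq0
    rw [← h1]
    push_cast
    ring
  -- transform of D0
  have hft0 : ∀ ψ : AddChar T ℂ, ∃ a : ℤ, ψ ∈ (univ : Finset (AddChar T ℂ)).erase 0 →
      ft D0 ψ = ((-(q * M) + 2 ^ f * a : ℤ) : ℂ) ∧ (2 : ℤ) ∣ a - ρ ψ := by
    intro ψ
    by_cases hψ : ψ ∈ (univ : Finset (AddChar T ℂ)).erase 0
    swap
    · exact ⟨0, fun h => absurd h hψ⟩
    have hψ0 := Finset.ne_of_mem_erase hψ
    have h1 := sum_ft_chi D ψ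
    rw [Finset.sum_congr rfl fun φ _ => h.ft_rho (chi ψ φ) (chi_ne_zero ψ φ hψ0)] at h1
    obtain ⟨Nψ, hNψ⟩ : ∃ Nψ : ℤ, Nψ = ∑ φ : AddChar H ℂ, rho D r (chi ψ φ) := ⟨_, rfl⟩
    have h2 : ((Fintype.card H : ℤ) : ℂ) * ft D0 ψ =
        ((-m * (Fintype.card H : ℤ) + (r + m) * Nψ : ℤ) : ℂ) := by
      rw [hNψ]
      push_cast
      push_cast at h1
      rw [← h1, Finset.sum_add_distrib, Finset.sum_const, Finset.card_univ, AddChar.card_eq,
        nsmul_eq_mul, ← Finset.mul_sum]
      ring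
    have hH0 : (Fintype.card H : ℤ) ≠ 0 := by exact_mod_cast Fintype.card_ne_zero
    obtain ⟨d, hd⟩ := int_of_integral _ (ft_integral D0 ψ) _ _ hH0 h2
    rw [hd] at h2
    have h3 : (Fintype.card H : ℤ) * (d + m) = 2 ^ f * q * Nψ := by
      have h4 : (Fintype.card H : ℤ) * d = -m * (Fintype.card H : ℤ) + (r + m) * Nψ := by
        have : (((Fintype.card H : ℤ) * d : ℤ) : ℂ) =
            ((-m * (Fintype.card H : ℤ) + (r + m) * Nψ : ℤ) : ℂ) := by
          rw [Int.cast_mul]; exact h2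
        exact Int.cast_injective this
      rw [hβ'] at h4
      linear_combination h4
    have hcop : IsCoprime ((2 : ℤ) ^ f) (Fintype.card H : ℤ) := by
      apply IsCoprime.pow_left
      have : IsCoprime ((2 : ℕ) : ℤ) ((Fintype.card H : ℕ) : ℤ) :=
        Nat.isCoprime_iff_coprime.2 ((Nat.coprime_two_left).2 hH)
      exact this
    obtain ⟨a, ha⟩ : (2 : ℤ) ^ f ∣ d + m := by
      apply hcop.dvd_of_dvd_mul_left
      rw [h3, mul_assoc]
      exact Dvd.intro _ rfl
    refine ⟨a, fun _ => ⟨?_, ?_⟩⟩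
    · rw [hd, ← ha, ← hM]
      push_cast
      ring
    · -- parity
      rw [ha] at h3
      have h5 : (Fintype.card H : ℤ) * a = q * Nψ := by
        have h6 : (2 : ℤ) ^ f * ((Fintype.card H : ℤ) * a) = 2 ^ f * (q * Nψ) := by
          linear_combination h3
        exact mul_left_cancel₀ (by positivity) h6
      have h6 : (2 : ℤ) ∣ Nψ - ρ ψ := by
        rw [hNψ]
        have hHc : Odd (Fintype.card (AddChar H ℂ)) := by rw [AddChar.card_eq]; exact hH
        apply parity_sum hHc (fun φ => rho D r (chi ψ φ))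
        intro φ
        unfold rho
        have h7 : ft D (chi ψ (-φ)) = ft D (chi ψ φ) := by
          rw [ft_chi, ft_chi]
          refine Finset.sum_congr rfl fun x _ => ?_
          rw [← Equiv.sum_comp (Equiv.neg H)]
          refine Finset.sum_congr rfl fun y _ => ?_
          rw [Equiv.neg_apply, h.negH n hT hH, AddChar.neg_apply, neg_neg]
        rw [h7]
      obtain ⟨c, hc⟩ := hH
      have hc' : (Fintype.card H : ℤ) = 2 * c + 1 := by rw [hc]; push_cast; rfl
      rw [hc'] at h5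
      obtain ⟨p, hp⟩ : ∃ p, q = 2 * p + 1 := ⟨q / 2, by omega⟩
      rw [hp] at h5
      obtain ⟨w, hw⟩ := h6
      refine ⟨p * Nψ - c * a + w, ?_⟩
      linear_combination h5 + hw
  choose a ha using hft0
  have hres := two_group n hT j D0 ρ a q M R f hR1 hRM' hRM hqodd hq1 (fun x => h.tf.val _)
    (fun x => by
      have := h.tf.neg (x, 0)
      rw [Prod.neg_mk, neg_zero] at this
      exact this)
    (fun x hx => by
      unfold conv
      apply Finset.sum_eq_zero
      intro y _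
      have := h.free_mul n hT hH (x, 0) (y, 0) hx
      rw [Prod.mk_sub_mk, sub_zero] at this
      exact this)
    h.tf.zero
    (by
      have := hj 0
      rw [hnf0] at this
      rcases mul_eq_zero.1 this.symm with h1 | h1
      · omega
      · exact h1)
    (fun x => by
      by_contra hcon
      have h1 : 0 ≤ nf x := Finset.sum_nonneg fun y _ => by
        rcases h.tf.val (x, y) with h2 | h2 <;> rw [h2] <;> norm_num
      rw [hj x] at h1
      have h2 : q * j x < 0 := mul_neg_of_pos_of_neg (by omega) (by omega)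
      omega)
    (fun x => by
      have h1 : (2 : ℤ) ∣ nf x - D0 x := by
        apply parity_sum hH (fun y => D (x, y))
        intro y
        exact h.negH n hT hH x y
      obtain ⟨p, hp⟩ : ∃ p, q = 2 * p + 1 := ⟨q / 2, by omega⟩
      rw [hj x, hp] at h1
      obtain ⟨w, hw⟩ := h1
      exact ⟨w - p * j x, by linear_combination hw⟩)
    (by
      have h1 : ∑ x, nf x = q * ∑ x, j x := by
        rw [Finset.mul_sum]
        exact Finset.sum_congr rfl fun x _ => hj x
      rw [hsumnf, hM, hR] at h1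
      apply mul_left_cancel₀ (by omega : q ≠ 0)
      rw [← h1]
      ring)
    (fun ψ => rho_val _ _ _) hftj (fun ψ hψ => (ha ψ hψ).1) (fun ψ hψ => (ha ψ hψ).2)
  obtain ⟨h1, h2, h3⟩ := hres
  rw [h1, h2] at hR
  rw [h1, h3] at hM
  exact ⟨by omega, by omega⟩

end TF2

end

end Pool.Agent.TFA
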